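import Pool.Agent.Lib.MP_7d369a_lc.Forc.EXT

/-!
# Finite amalgamation

Module AMA. A finite family of conditions `p a` whose supports meet only in `R`, with the same
stems (of length at most `n0`) and at most `m` promises at every coordinate of `R`. If the family
is large (`(EE m n0)^[R.card] k` members), then `k` of its members have a common extension.

Proof, by `Finset.induction_on_max` on `R` (for all `k`, `ι`, `p`).

`R = ∅`: the supports are pairwise disjoint; `q := uni univ p`, the union (define, for a finite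
set `F` of indices, `uni F p` as the condition which at `j` is `(p a).co j` for some chosen
`a ∈ F` with `(p a).co j ≠ 0` if there is one, and `0` otherwise). `q.co j = (p a).co j` whenever
`(p a).co j ≠ 0`, otherwise `(p a).co j = 0`: `Step.of_eq` or `Step.of_zero`.

`R = insert i R'`, all members of `R'` below `i`: put `k' := EE m n0 k`. The restrictions
`p' a := glue (Set.Iio i) (p a) 0'` (`0'` = the empty condition) satisfy the hypotheses with `R'`
and `k'`, since `(EE m n0)^[R.card] k = (EE m n0)^[R'.card] k'` (`Function.iterate_succ_apply`,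
the iteration starts with the innermost). Get `F1`, `q1` with `k' ≤ F1.card`, `q1 ≤ p' a` for all
`a ∈ F1`; below `i` this says `LE' bk (Set.Iio i) q1 (p a)`.

Kind `C` or `H` at `i`: choose `F ⊆ F1` with `F.card = k` (`k ≤ k'` because `1 ≤ cls _`); new
coordinate `c`: the common stem, promises = union of the `((p a).co i).pr`, `a ∈ F` (empty for
kind `C`). Kind `L`: let `N := max n0 (k * m)`. By `dec_many` there are `r` below `q1` on
`Set.Iio i` and values `V β n` for all `β` in the union of the `((p a).co i).pr`, `a ∈ F1`, and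
all `n < N`. The class of `a ∈ F1` is the function `n ↦ {(κ i).clip n (V β n) : β ∈ pr of a}`,
`n < N`, a subset of `Finset.range (bd n)` (as `clip .L n v < bd n`); there are at most
`cls N = ∏ n < N, 2 ^ bd n` classes, and `k' = k * cls N`, so `k` members `F` of `F1` are in one
class (if `k = 0` take `F = ∅`). New coordinate: the common stem, followed by the entries of the
class for `n` from the length of the stem to `N - 1`; promises = union of the `pr` of `a ∈ F`, at
most `k * m ≤ N`. Entries have at most `((p a).co i).pr.card ≤ (p a).co i).st.length ≤ n`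
elements.

In both cases `q := upd (glue (Set.Iio i) r (uni F p)) i c`. For `a ∈ F`: below `i`, `q` agrees
with `r ≤ q1 ≤ p a`; at `i`: the decisions; above `i`: supports of the `p a`, `a ∈ F`, are
pairwise disjoint there, so `q.co j = (p a).co j` or `(p a).co j = 0`. (Either use `extend_le`
for the condition `glue (Set.Iic i) (p a) (uni F p)` or argue directly with `Step`.)
-/

set_option autoImplicit false
set_option linter.unusedSectionVars false

namespace Pool.Agent.Lib.MP_7d369a_lc.Forc

open Pool.Agent.Ladder Pool.Agent.Lib.MP_7d369a_lc.BV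

/-- Number of possible extensions of a stem of kind `L` up to length `N`. -/
def cls (N : ℕ) : ℕ := ∏ n ∈ Finset.range N, 2 ^ bd n

/-- One step of the amalgamation. -/
def EE (m n0 k : ℕ) : ℕ := k * cls (max n0 (k * m))

section
variable {K J : Type} {κ : K → Kind} [LinearOrder K] [WellFoundedLT K] {bk : K → Code K J κ}

/-- The empty condition. -/
def ama_zr : Cd K J κ where
  co := 0
  ok := by
    intro i n e h
    simp [Co.zero_st] at h
  pok := by
    intro i
    cases κ i <;> simp [Kind.Pok, Co.zero_pr, Co.zero_st]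

theorem ama_zr_co (i : K) : (ama_zr : Cd K J κ).co i = 0 := rfl

open Classical in
/-- The union of the conditions `p a`, `a ∈ F`. -/
noncomputable def ama_uni {ι : Type} (F : Finset ι) (p : ι → Cd K J κ) : Cd K J κ where
  co := Finsupp.onFinset (F.biUnion fun a => supp (p a))
    (fun i => if h : ∃ a ∈ F, (p a).co i ≠ 0 then (p h.choose).co i else 0) (by
      intro i hi
      by_cases h : ∃ a ∈ F, (p a).co i ≠ 0
      · obtain ⟨a, ha, hai⟩ := h
        exact Finset.mem_biUnion.2 ⟨a, ha, Finsupp.mem_support_iff.2 hai⟩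
      · rw [dif_neg h] at hi
        exact absurd rfl hi)
  ok := by
    intro i n e h
    rw [Finsupp.onFinset_apply] at h
    by_cases hi : ∃ a ∈ F, (p a).co i ≠ 0
    · rw [dif_pos hi] at h
      exact (p hi.choose).ok i n e h
    · rw [dif_neg hi] at h
      exact ama_zr.ok i n e h
  pok := by
    intro i
    rw [Finsupp.onFinset_apply]
    by_cases hi : ∃ a ∈ F, (p a).co i ≠ 0
    · rw [dif_pos hi]
      exact (p hi.choose).pok i
    · rw [dif_neg hi]
      exact ama_zr.pok i

theorem ama_uni_co {ι : Type} (F : Finset ι) (p : ι → Cd K J κ) (i : K) (a : ι) (ha : a ∈ F)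
    (h : ∀ b ∈ F, b ≠ a → (p a).co i = 0 ∨ (p b).co i = 0) :
    (p a).co i = 0 ∨ (ama_uni F p).co i = (p a).co i := by
  by_cases h0 : (p a).co i = 0
  · exact Or.inl h0
  · right
    have hex : ∃ a ∈ F, (p a).co i ≠ 0 := ⟨a, ha, h0⟩
    have h1 : (ama_uni F p).co i = (p hex.choose).co i := by
      simp only [ama_uni, Finsupp.onFinset_apply]
      rw [dif_pos hex]
    rw [h1]
    have h2 := hex.choose_spec
    by_cases h3 : hex.choose = a
    · rw [h3]
    · rcases h _ h2.1 h3 with h4 | h4
      · exact absurd h4 h0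
      · exact absurd h4 h2.2

/-- The assembly of the common extension from its parts. -/
theorem ama_assemble {ι : Type} (F : Finset ι) (p : ι → Cd K J κ) (i : K)
    (hdisj : ∀ a ∈ F, ∀ b ∈ F, b ≠ a → ∀ j, i < j → (p a).co j = 0 ∨ (p b).co j = 0)
    (r : Cd K J κ) (hr : ∀ a ∈ F, LE' bk (Set.Iio i) r (p a)) (c : Co J)
    (h1 : ∀ n e, c.st[n]? = some e → (κ i).Ok n e) (h2 : (κ i).Pok c.st.length c.pr.card)
    (hst : ∀ a ∈ F, ((p a).co i).st <+: c.st) (hpr : ∀ a ∈ F, ((p a).co i).pr ⊆ c.pr)
    (hdec : ∀ a ∈ F, ∀ β ∈ ((p a).co i).pr, ∀ n, ((p a).co i).st.length ≤ n →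
      ∀ e, c.st[n]? = some e →
      ∃ v, Dec (LE' bk (Set.Iio i)) (bk i β n) r v ∧ (κ i).clip n v ∈ e) :
    ∃ q : Cd K J κ, ∀ a ∈ F, LE' bk Set.univ q (p a) := by
  refine ⟨upd (glue (Set.Iio i) r (ama_uni F p)) i c h1 h2, ?_⟩
  intro a ha j _
  have hq : ∀ j, j < i →
      (upd (glue (Set.Iio i) r (ama_uni F p)) i c h1 h2).co j = r.co j := by
    intro j hj
    rw [upd_ne hj.ne, glue_in (show j ∈ Set.Iio i from hj)]
  have hqr : LE' bk (Set.Iio i) (upd (glue (Set.Iio i) r (ama_uni F p)) i c h1 h2) r :=
    Agree.le fun j hj => hq j hj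
  rcases lt_trichotomy j i with hj | hj | hj
  · refine (hr a ha j hj).congr ?_ (hq j hj) rfl
    exact hqr.mono (Set.Iio_subset_Iio hj.le)
  · subst hj
    rw [ordF_eq]
    unfold Step
    rw [upd_self]
    refine ⟨hst a ha, hpr a ha, fun β hβ n hn e he => ?_⟩
    obtain ⟨v, hv, hve⟩ := hdec a ha β hβ n hn e he
    exact ⟨v, hv.mono (LE'.trans_Iio j) hqr, hve⟩
  · have h3 : (upd (glue (Set.Iio i) r (ama_uni F p)) i c h1 h2).co j = (ama_uni F p).co j := by
      rw [upd_ne hj.ne', glue_out (show j ∉ Set.Iio i from not_lt.2 hj.le)]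
    rcases ama_uni_co F p j a ha (fun b hb hba => hdisj a ha b hb hba j hj) with h4 | h4
    · exact Step.of_zero h4
    · exact Step.of_eq (h3.trans h4)

/-- The step at one coordinate. -/
theorem ama_step {ι : Type} (m n0 k : ℕ) (i : K) (p : ι → Cd K J κ) (F1 : Finset ι)
    (hk : EE m n0 k ≤ F1.card) (hk0 : 0 < k)
    (hst : ∀ a ∈ F1, ∀ b ∈ F1, ((p a).co i).st = ((p b).co i).st)
    (hb : ∀ a ∈ F1, ((p a).co i).st.length ≤ n0 ∧ ((p a).co i).pr.card ≤ m)
    (q1 : Cd K J κ) :
    ∃ (F : Finset ι) (r : Cd K J κ) (c : Co J), F ⊆ F1 ∧ F.card = k ∧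
      LE' bk (Set.Iio i) r q1 ∧
      (∀ n e, c.st[n]? = some e → (κ i).Ok n e) ∧ (κ i).Pok c.st.length c.pr.card ∧
      (∀ a ∈ F, ((p a).co i).st <+: c.st) ∧ (∀ a ∈ F, ((p a).co i).pr ⊆ c.pr) ∧
      (∀ a ∈ F, ∀ β ∈ ((p a).co i).pr, ∀ n, ((p a).co i).st.length ≤ n →
        ∀ e, c.st[n]? = some e →
        ∃ v, Dec (LE' bk (Set.Iio i)) (bk i β n) r v ∧ (κ i).clip n v ∈ e) := by
  classical
  have hcls : 1 ≤ cls (max n0 (k * m)) := by
    unfold cls
    exact Nat.one_le_iff_ne_zero.2 (Finset.prod_ne_zero_iff.2 fun n _ => by positivity)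
  have hkF : k ≤ F1.card := le_trans (by unfold EE; nlinarith) hk
  by_cases hL : κ i = .L
  · -- kind `L`
    set N := max n0 (k * m) with hN
    obtain ⟨r, hr, V, hV⟩ := dec_many (bk := bk) i q1
      ((F1.biUnion fun a => ((p a).co i).pr) ×ˢ Finset.range N)
    let Y : ι → ℕ → Finset ℕ := fun a n => ((p a).co i).pr.image fun β => (κ i).clip n (V β n)
    let g : ι → (n : ℕ) → n ∈ Finset.range N → Finset ℕ := fun a n _ => Y a n
    have hclip : ∀ n v, (κ i).clip n v < bd n := by
      intro n v
      rw [hL]
      change (if v < bd n then v else 0) < bd n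
      split_ifs with h
      · exact h
      · unfold bd; positivity
    have hmaps : ∀ a ∈ F1, g a ∈ (Finset.range N).pi fun n => (Finset.range (bd n)).powerset := by
      intro a _
      rw [Finset.mem_pi]
      intro n _
      rw [Finset.mem_powerset]
      intro v hv
      obtain ⟨β, _, rfl⟩ := Finset.mem_image.1 hv
      exact Finset.mem_range.2 (hclip n _)
    have hcard : ((Finset.range N).pi fun n => (Finset.range (bd n)).powerset).card = cls N := by
      rw [Finset.card_pi]
      unfold cls
      exact Finset.prod_congr rfl fun n _ => by rw [Finset.card_powerset, Finset.card_range]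
    obtain ⟨y, _, hy⟩ := Finset.exists_le_card_fiber_of_mul_le_card_of_maps_to (n := k) hmaps
      (Finset.card_pos.1 (by rw [hcard]; omega))
      (by rw [hcard, mul_comm]; exact hk)
    obtain ⟨F, hFs, hFk⟩ := Finset.exists_subset_card_eq hy
    have hFF1 : F ⊆ F1 := fun a ha => (Finset.mem_filter.1 (hFs ha)).1
    have hFy : ∀ a ∈ F, g a = y := fun a ha => (Finset.mem_filter.1 (hFs ha)).2
    obtain ⟨a0, ha0⟩ : F.Nonempty := Finset.card_pos.1 (by omega)
    set s0 := ((p a0).co i).st with hs0
    have hs0N : s0.length ≤ N := (hb a0 (hFF1 ha0)).1.trans (le_max_left _ _)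
    have hget : ∀ n, s0.length ≤ n → ∀ e,
        (s0 ++ ((List.range N).map (Y a0)).drop s0.length)[n]? = some e → n < N ∧ e = Y a0 n := by
      intro n hn e he
      rw [List.getElem?_append_right hn, List.getElem?_drop, Nat.add_sub_cancel' hn,
        List.getElem?_map] at he
      rcases lt_or_ge n N with h | h
      · rw [List.getElem?_range h] at he
        simp only [Option.map_some, Option.some.injEq] at he
        exact ⟨h, he.symm⟩
      · rw [List.getElem?_eq_none (by simpa using h)] at he
        simp at he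
    have hlen : (s0 ++ ((List.range N).map (Y a0)).drop s0.length).length = N := by
      rw [List.length_append, List.length_drop, List.length_map, List.length_range]
      omega
    refine ⟨F, r, ⟨s0 ++ ((List.range N).map (Y a0)).drop s0.length,
      F.biUnion fun a => ((p a).co i).pr⟩, hFF1, hFk, hr, ?_, ?_, ?_, ?_, ?_⟩
    · intro n e he
      rcases lt_or_ge n s0.length with hn | hn
      · rw [List.getElem?_append_left hn] at he
        exact (p a0).ok i n e he
      · obtain ⟨_, rfl⟩ := hget n hn e he
        rw [hL]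
        have h5 := (p a0).pok i
        rw [hL] at h5
        exact Finset.card_image_le.trans (h5.trans hn)
    · rw [hL]
      change (F.biUnion fun a => ((p a).co i).pr).card ≤ List.length _
      rw [hlen]
      refine Finset.card_biUnion_le.trans ((Finset.sum_le_card_nsmul _ _ m
        fun a ha => (hb a (hFF1 ha)).2).trans ?_)
      rw [hFk, smul_eq_mul]
      exact le_max_right _ _
    · intro a ha
      rw [hst a (hFF1 ha) a0 (hFF1 ha0)]
      exact List.prefix_append _ _
    · intro a ha
      exact Finset.subset_biUnion_of_mem (fun a => ((p a).co i).pr) ha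
    · intro a ha β hβ n hn e he
      rw [hst a (hFF1 ha) a0 (hFF1 ha0)] at hn
      obtain ⟨hnN, rfl⟩ := hget n hn e he
      refine ⟨V β n, hV (β, n) (Finset.mem_product.2 ⟨Finset.mem_biUnion.2 ⟨a, hFF1 ha, hβ⟩,
        Finset.mem_range.2 hnN⟩), ?_⟩
      have h6 : Y a0 n = Y a n := by
        have h7 := (hFy a0 ha0).trans (hFy a ha).symm
        exact congrFun (congrFun h7 n) (Finset.mem_range.2 hnN)
      rw [h6]
      exact Finset.mem_image_of_mem (fun β => (κ i).clip n (V β n)) hβ
  · -- kinds `C` and `H`
    obtain ⟨F, hFF1, hFk⟩ := Finset.exists_subset_card_eq hkF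
    obtain ⟨a0, ha0⟩ : F.Nonempty := Finset.card_pos.1 (by omega)
    refine ⟨F, q1, ⟨((p a0).co i).st, F.biUnion fun a => ((p a).co i).pr⟩, hFF1, hFk,
      LE'.refl bk _ _, fun n e he => (p a0).ok i n e he, ?_, ?_, ?_, ?_⟩
    · cases hκ : κ i with
      | C =>
        change (F.biUnion fun a => ((p a).co i).pr).card = 0
        rw [Finset.card_eq_zero]
        refine Finset.eq_empty_of_forall_notMem fun β hβ => ?_
        obtain ⟨a, _, hβa⟩ := Finset.mem_biUnion.1 hβ
        have h5 := (p a).pok i
        rw [hκ] at h5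
        rw [Finset.card_eq_zero.1 h5] at hβa
        exact absurd hβa (Finset.notMem_empty _)
      | H => trivial
      | L => exact absurd hκ hL
    · intro a ha
      rw [hst a (hFF1 ha) a0 (hFF1 ha0)]
    · intro a ha
      exact Finset.subset_biUnion_of_mem (fun a => ((p a).co i).pr) ha
    · intro a ha β hβ n hn e he
      rw [hst a (hFF1 ha) a0 (hFF1 ha0)] at hn
      rw [List.getElem?_eq_none hn] at he
      cases he

theorem finite_amalgamation (m n0 : ℕ) (R : Finset K) :
    ∀ (k : ℕ) (ι : Type) [Fintype ι] (p : ι → Cd K J κ),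
      (EE m n0)^[R.card] k ≤ Fintype.card ι →
      (∀ a b, a ≠ b → supp (p a) ∩ supp (p b) ⊆ R) →
      (∀ i ∈ R, ∀ a b, ((p a).co i).st = ((p b).co i).st) →
      (∀ i ∈ R, ∀ a, ((p a).co i).st.length ≤ n0 ∧ ((p a).co i).pr.card ≤ m) →
      ∃ (F : Finset ι) (q : Cd K J κ), k ≤ F.card ∧ ∀ a ∈ F, LE' bk Set.univ q (p a) := by
  classical
  induction R using Finset.induction_on_max with
  | empty =>
    intro k ι _ p hk hsupp _ _
    refine ⟨Finset.univ, ama_uni Finset.univ p, by simpa using hk, fun a ha i _ => ?_⟩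
    have h1 : ∀ b ∈ Finset.univ, b ≠ a → (p a).co i = 0 ∨ (p b).co i = 0 := by
      intro b _ hba
      by_contra hc
      push Not at hc
      have h2 := hsupp a b hba.symm (Finset.mem_inter.2 ⟨Finsupp.mem_support_iff.2 hc.1,
        Finsupp.mem_support_iff.2 hc.2⟩)
      exact absurd h2 (Finset.notMem_empty _)
    rcases ama_uni_co Finset.univ p i a ha h1 with h3 | h3
    · exact Step.of_zero h3
    · exact Step.of_eq h3
  | insert i R' hmax ih =>
    intro k ι _ p hk hsupp hst hb
    rcases Nat.eq_zero_or_pos k with rfl | hk0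
    · exact ⟨∅, ama_zr, by simp, fun a ha => absurd ha (Finset.notMem_empty _)⟩
    have hiR : i ∉ R' := fun h => lt_irrefl i (hmax i h)
    rw [Finset.card_insert_of_notMem hiR, Function.iterate_succ_apply] at hk
    have hin : ∀ a j, j < i → (glue (Set.Iio i) (p a) ama_zr).co j = (p a).co j :=
      fun a j hj => glue_in (show j ∈ Set.Iio i from hj)
    have hout : ∀ a j, ¬ j < i → (glue (Set.Iio i) (p a) (ama_zr : Cd K J κ)).co j = 0 :=
      fun a j hj => (glue_out (show j ∉ Set.Iio i from hj)).trans (ama_zr_co j)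
    obtain ⟨F1, q1, hF1, hq1⟩ := ih (EE m n0 k) ι (fun a => glue (Set.Iio i) (p a) ama_zr) hk
      (by
        intro a b hab j hj
        rw [Finset.mem_inter] at hj
        have h1 : j < i := by
          by_contra h
          exact Finsupp.mem_support_iff.1 hj.1 (hout a j h)
        have h2 : j ∈ supp (p a) ∩ supp (p b) := by
          refine Finset.mem_inter.2 ⟨Finsupp.mem_support_iff.2 ?_, Finsupp.mem_support_iff.2 ?_⟩
          · rw [← hin a j h1]; exact Finsupp.mem_support_iff.1 hj.1
          · rw [← hin b j h1]; exact Finsupp.mem_support_iff.1 hj.2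
        rcases Finset.mem_insert.1 (hsupp a b hab h2) with h3 | h3
        · exact absurd h3 h1.ne
        · exact h3)
      (by
        intro j hj a b
        rw [hin a j (hmax j hj), hin b j (hmax j hj)]
        exact hst j (Finset.mem_insert_of_mem hj) a b)
      (by
        intro j hj a
        rw [hin a j (hmax j hj)]
        exact hb j (Finset.mem_insert_of_mem hj) a)
    obtain ⟨F, r, c, hFF1, hFk, hr, h1, h2, h3, h4, h5⟩ := ama_step (bk := bk) m n0 k i p F1 hF1 hk0
      (fun a _ b _ => hst i (Finset.mem_insert_self _ _) a b)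
      (fun a _ => hb i (Finset.mem_insert_self _ _) a) q1
    have hra : ∀ a ∈ F, LE' bk (Set.Iio i) r (p a) := by
      intro a ha
      refine LE'.trans (low_Iio i) hr ?_
      refine LE'.trans (low_Iio i) ((hq1 a (hFF1 ha)).mono (Set.subset_univ _)) ?_
      exact Agree.le fun j hj => hin a j hj
    obtain ⟨q, hq⟩ := ama_assemble (bk := bk) F p i (by
        intro a _ b _ hba j hj
        by_contra hc
        push Not at hc
        have h6 := hsupp a b hba.symm (Finset.mem_inter.2 ⟨Finsupp.mem_support_iff.2 hc.1,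
          Finsupp.mem_support_iff.2 hc.2⟩)
        rcases Finset.mem_insert.1 h6 with h7 | h7
        · exact absurd h7 hj.ne'
        · exact absurd (hmax j h7) (not_lt.2 hj.le)) r hra c h1 h2 h3 h4 h5
    exact ⟨F, q, hFk.ge, hq⟩

end

end Pool.Agent.Lib.MP_7d369a_lc.Forc
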