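import Pool.Agent.Lib.MP_7d369a_lc.Forc.Ord
import Pool.Agent.Lib.MP_62a69e_lc.FSCard

/-!
# The bookkeeping for additivity

Module BKA. `KK` (in `MP_62a69e_lc/FSCard.lean`) is the initial ordinal of `2 ^ ℵ₁`; reuse
`mk_KK`, `aleph0_le_KK`, `mk_Iio_KK`, `exists_gt_KK`, `exists_gt_KK_one`, `mk_W_le_KK` and follow
`mk_Cd_le`, `mk_Code_le`, `exists_bookkeeping` there. Proof: `#(Kind × KK × KK) ≤ #KK`, so there is
a surjection `G : KK → Kind × KK × KK`; `κ j := (G j).1`. `#(Co W) ≤ #KK` (finite lists of finite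
sets of numbers, finite subsets of `W`), `#(Cd KK W κ) ≤ #KK` (injection into `KK →₀ Co W`,
`Cardinal.mk_finsupp_of_infinite` or a map to `Finset (KK × Co W)`), and
`#(Code KK W κ) ≤ (#KK) ^ ℵ₁ = #KK`; a surjection `d : KK → Code KK W κ`, `bk j := d (G j).2.1`.
Cofinality: as in `exists_bookkeeping` (the set of all `j` with given first two components has
`#KK` members, initial segments have fewer). The map `g`: the set `{j | κ j = .C}` has cardinality
`#KK ≥ #W`.
-/

set_option autoImplicit false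

namespace Pool.Agent.Lib.MP_7d369a_lc.Forc

open Pool.Agent.Ladder Pool.Agent.Lib.MP_7d369a_lc.BV
open Cardinal

theorem bka_mk_Co (J : Type) [Infinite J] (hJ : #J ≤ #KK) : #(Co J) ≤ #KK := by
  have hK := aleph0_le_KK
  have hinj : Function.Injective (fun p : Co J => (p.st, p.pr)) := by
    intro p q h
    simp only [Prod.mk.injEq] at h
    exact Co.ext h.1 h.2
  refine (mk_le_of_injective hinj).trans ?_
  have h1 : #(List (Finset ℕ)) ≤ #KK := (Cardinal.mk_le_aleph0).trans hK
  have h2 : #(Finset J) ≤ #KK := by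
    rw [mk_finset_of_infinite]
    exact hJ
  simp only [mk_prod, Cardinal.lift_id]
  exact (mul_le_mul' h1 h2).trans (mul_eq_self hK).le

instance bka_nontrivial (J : Type) : Nontrivial (Co J) :=
  ⟨⟨[], ∅⟩, ⟨[∅], ∅⟩, fun h => by
    have := congrArg Co.st h
    simp at this⟩

theorem bka_mk_Cd (K J : Type) [Infinite K] [Infinite J] (hK : #K ≤ #KK) (hJ : #J ≤ #KK)
    (κ : K → Kind) : #(Cd K J κ) ≤ #KK := by
  have hinj : Function.Injective (fun p : Cd K J κ => p.co) := by
    intro p q h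
    exact Cd.ext h
  refine (mk_le_of_injective hinj).trans ?_
  rw [mk_finsupp_of_infinite]
  exact max_le hK (bka_mk_Co J hJ)

theorem bka_mk_opt (K J : Type) [Infinite K] [Infinite J] (hK : #K ≤ #KK) (hJ : #J ≤ #KK)
    (κ : K → Kind) : #(Option (Cd K J κ)) ≤ #KK := by
  have h := aleph0_le_KK
  rw [mk_option]
  exact (add_le_add (bka_mk_Cd K J hK hJ κ) (one_le_aleph0.trans h)).trans (add_eq_self h).le

theorem bka_mk_names (K J : Type) [Infinite K] [Infinite J] (hK : #K ≤ #KK) (hJ : #J ≤ #KK)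
    (κ : K → Kind) : #(ℕ → ℕ → ℕ → Option (Cd K J κ)) ≤ #KK := by
  have h1 : #(ℕ → ℕ → ℕ → Option (Cd K J κ)) = ((#(Option (Cd K J κ)) ^ ℵ₀) ^ ℵ₀) ^ ℵ₀ := by
    simp only [mk_arrow, Cardinal.lift_id, mk_nat]
  rw [h1, ← power_mul, ← power_mul]
  refine (power_le_power_right (bka_mk_opt K J hK hJ κ)).trans ?_
  rw [mk_KK, ← power_mul]
  have : (ℵ₁ : Cardinal.{0}) * (ℵ₀ * ℵ₀ * ℵ₀) = ℵ₁ := by
    rw [aleph0_mul_aleph0, aleph0_mul_aleph0, mul_aleph0_eq (aleph0_le_aleph 1)]
  rw [mul_assoc] at this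
  rw [this]

theorem bka_mk_Code (κ : KK → Kind) : #(Code KK W κ) ≤ #KK := by
  have h1 : #(Code KK W κ) = #(ℕ → ℕ → ℕ → Option (Cd KK W κ)) ^ ℵ₁ := by
    simp only [Code, mk_arrow, Cardinal.lift_id, mk_W]
  rw [h1]
  refine (power_le_power_right (bka_mk_names KK W le_rfl mk_W_le_KK κ)).trans ?_
  rw [mk_KK, ← power_mul, mul_eq_self (aleph0_le_aleph 1)]

theorem bka_mk_Kind : #Kind ≤ ℵ₀ := by
  have hinj : Function.Injective (fun k : Kind => match k with
    | .C => (0 : ℕ)
    | .H => 1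
    | .L => 2) := by
    intro a b h
    cases a <;> cases b <;> simp_all
  exact (mk_le_of_injective hinj).trans mk_nat.le

theorem exists_bookkeeping_A :
    ∃ (κ : KK → Kind) (bk : KK → Code KK W κ),
      (∀ (k : Kind) (S : Code KK W κ) (i : KK), ∃ j, i < j ∧ κ j = k ∧ bk j = S) ∧
      ∃ g : W → KK, Function.Injective g ∧ ∀ a, κ (g a) = .C := by
  classical
  have hK := aleph0_le_KK
  have hle : #(Kind × KK × KK) ≤ #KK := by
    simp only [mk_prod, Cardinal.lift_id]
    exact (mul_le_mul' (bka_mk_Kind.trans hK) (mul_eq_self hK).le).trans (mul_eq_self hK).le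
  obtain ⟨e⟩ := Cardinal.le_def _ _ |>.1 hle
  have : Nonempty (Kind × KK × KK) :=
    ⟨(Kind.C, Classical.arbitrary KK, Classical.arbitrary KK)⟩
  let g : KK → Kind × KK × KK := Function.invFun e
  have hg : Function.Surjective g := Function.invFun_surjective e.injective
  let κ : KK → Kind := fun j => (g j).1
  obtain ⟨d⟩ := Cardinal.le_def _ _ |>.1 (bka_mk_Code κ)
  have : Nonempty (Code KK W κ) := ⟨fun _ _ _ _ => none⟩
  let dd : KK → Code KK W κ := Function.invFun d
  have hdd : Function.Surjective dd := Function.invFun_surjective d.injective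
  refine ⟨κ, fun j => dd (g j).2.1, fun k S i => ?_, ?_⟩
  · obtain ⟨c, hc⟩ := hdd S
    by_contra hcon
    push Not at hcon
    obtain ⟨i', hi'⟩ := exists_gt_KK_one i
    have hsub : {j | (g j).1 = k ∧ (g j).2.1 = c} ⊆ Set.Iio i' := by
      intro j hj
      have : ¬ i < j := fun h => hcon j h hj.1 (by rw [hj.2]; exact hc)
      exact lt_of_le_of_lt (not_lt.1 this) hi'
    have hsurj : Function.Surjective
        (fun j : {j | (g j).1 = k ∧ (g j).2.1 = c} => (g j.1).2.2) := by
      intro l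
      obtain ⟨j, hj⟩ := hg (k, c, l)
      exact ⟨⟨j, by show (g j).1 = k ∧ (g j).2.1 = c; rw [hj]; exact ⟨rfl, rfl⟩⟩,
        by show (g j).2.2 = l; rw [hj]⟩
    have h1 : #KK ≤ #{j | (g j).1 = k ∧ (g j).2.1 = c} := mk_le_of_surjective hsurj
    have h2 : #{j | (g j).1 = k ∧ (g j).2.1 = c} ≤ #(Set.Iio i') := mk_le_mk_of_subset hsub
    exact absurd (h1.trans h2) (not_le.2 (mk_Iio_KK i'))
  · obtain ⟨ι⟩ := Cardinal.le_def _ _ |>.1 mk_W_le_KK
    have hs := Function.rightInverse_surjInv hg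
    refine ⟨fun a => Function.surjInv hg (Kind.C, Classical.arbitrary KK, ι a), ?_, fun a => ?_⟩
    · intro a b h
      have h2 := (Function.injective_surjInv hg) h
      simp only [Prod.mk.injEq, true_and] at h2
      exact ι.injective h2
    · show (g (Function.surjInv hg (Kind.C, Classical.arbitrary KK, ι a))).1 = Kind.C
      rw [hs]

end Pool.Agent.Lib.MP_7d369a_lc.Forc
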