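import Pool.Agent.Lib.MP_7d369a_lc.Forc.Ord
import Pool.Agent.Lib.MP_7d369a_lc.Forc.BKA
import Pool.Agent.Lib.MP_62a69e_lc.FSCard

/-!
# The bookkeeping for cofinality

Module BKB. Here one list `e` contains all names and is used at every coordinate; the coordinates
of kind `H` and `L` form a sequence of length `ω₁` on top of more than `ℵ₁` Cohen coordinates.

Proof. `Gam := KK` (initial ordinal of `2 ^ ℵ₁`, `ℵ₁ < 2 ^ ℵ₁` by `Cardinal.cantor`),
`K := Gam ⊕ₗ W` (`Lex (Gam ⊕ W)`, linear order `Sum.Lex.linearOrder`, well-founded because both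
parts are), or any other well-ordered type with the properties. Choose `par : W → Bool` with both
fibres uncountable (for instance from a bijection of `W` with `W × Bool`), so both fibres are
cofinal in `W` (initial segments of `W` are countable, `countable_Iio` in
`MP_62a69e_lc/Basic.lean`). Kinds: `C` on `Gam`, `H` or `L` on `W` according to `par`. `hh a`,
`ll a`: elements of `W` above `a` of kind `H`, `L`. A countable set `Z ⊆ K` is bounded on the
`W`-part by some `a` (`exists_gt_of_countable` or similar in `MP_62a69e_lc/Basic.lean`), and all of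
`Gam` is below `W`. `J := KK`: `#(Cd K J κ) ≤ #KK` as in BKA, and
`#(ℕ → ℕ → ℕ → Option (Cd K J κ)) ≤ #KK ^ ℵ₀ = #KK`, so a surjection `e` exists.
-/

set_option autoImplicit false

namespace Pool.Agent.Lib.MP_7d369a_lc.Forc

open Pool.Agent.Ladder Pool.Agent.Lib.MP_7d369a_lc.BV
open Cardinal

/-- two cofinal classes of countable ordinals -/
theorem bkb_par : ∃ par : W → Bool, ∀ (c : Bool) (a : W), ∃ b, a < b ∧ par b = c := by
  have h1 : #(W × Bool) = #W := by
    simp only [mk_prod, Cardinal.lift_id, mk_bool, mk_W]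
    exact mul_eq_left (aleph0_le_aleph 1)
      ((Cardinal.natCast_lt_aleph0 (n := 2)).le.trans (aleph0_le_aleph 1)) (by norm_num)
  obtain ⟨φ⟩ := Cardinal.eq.1 h1
  refine ⟨fun w => (φ.symm w).2, fun c a => ?_⟩
  by_contra hcon
  push Not at hcon
  have hsub : Set.range (fun w : W => φ (w, c)) ⊆ Set.Iic a := by
    rintro _ ⟨w, rfl⟩
    by_contra hlt
    exact hcon (φ (w, c)) (not_le.1 hlt) (by simp)
  have hc := (countable_Iic a).mono hsub
  have hinj : Function.Injective (fun w : W => φ (w, c)) := by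
    intro x y h
    have := φ.injective h
    simpa using this
  exact not_countable_W (Set.countable_univ_iff.1
    (Set.countable_of_injective_of_countable_image hinj.injOn (by rwa [Set.image_univ])))

theorem exists_bookkeeping_B :
    ∃ (K J Gam : Type) (_ : LinearOrder K) (_ : WellFoundedLT K) (κ : K → Kind)
      (e : Code K J κ) (hh ll : W → K) (g : Gam → K),
      Cardinal.aleph 1 < Cardinal.mk Gam ∧ Function.Injective g ∧ (∀ a, κ (g a) = .C) ∧
      (∀ a, κ (hh a) = .H) ∧ (∀ a, κ (ll a) = .L) ∧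
      (∀ S : ℕ → ℕ → ℕ → Option (Cd K J κ), ∃ β : J, e β = S) ∧
      ∀ Z : Set K, Z.Countable → ∃ a : W, ∀ i ∈ Z, i < hh a ∧ i < ll a := by
  classical
  have hKK := aleph0_le_KK
  obtain ⟨par, hpar⟩ := bkb_par
  choose up hup1 hup2 using hpar
  let κ : (KK ⊕ₗ W) → Kind := fun x => Sum.elim (fun _ => Kind.C)
    (fun w => if par w = true then Kind.H else Kind.L) (ofLex x)
  have hinf : Infinite (KK ⊕ₗ W) := by
    refine Infinite.of_injective (fun x : KK => toLex (Sum.inl x : KK ⊕ W)) ?_
    intro x y h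
    exact Sum.inl_injective (toLex.injective h)
  have hcard : #(KK ⊕ₗ W) ≤ #KK := by
    have h1 : #(KK ⊕ₗ W) = #(KK ⊕ W) := Cardinal.mk_congr ofLex
    rw [h1, mk_sum, Cardinal.lift_id, Cardinal.lift_id]
    exact (add_le_add le_rfl mk_W_le_KK).trans (add_eq_self hKK).le
  obtain ⟨d⟩ := Cardinal.le_def _ _ |>.1 (bka_mk_names (KK ⊕ₗ W) KK hcard le_rfl κ)
  have : Nonempty (ℕ → ℕ → ℕ → Option (Cd (KK ⊕ₗ W) KK κ)) := ⟨fun _ _ _ => none⟩
  have hdd : Function.Surjective (Function.invFun d) := Function.invFun_surjective d.injective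
  have hwf : WellFoundedLT (KK ⊕ₗ W) := ⟨Sum.lex_wf wellFounded_lt wellFounded_lt⟩
  refine ⟨KK ⊕ₗ W, KK, KK, inferInstance, hwf, κ, Function.invFun d,
    fun a => toLex (Sum.inr (up true a)), fun a => toLex (Sum.inr (up false a)),
    fun x => toLex (Sum.inl x), ?_, ?_, ?_, ?_, ?_, fun S => hdd S, ?_⟩
  · rw [mk_KK]
    exact cantor _
  · intro x y h
    exact Sum.inl_injective (toLex.injective h)
  · intro a
    rfl
  · intro a
    show (if par (up true a) = true then Kind.H else Kind.L) = Kind.H
    rw [if_pos (hup2 true a)]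
  · intro a
    show (if par (up false a) = true then Kind.H else Kind.L) = Kind.L
    rw [if_neg (by rw [hup2 false a]; decide)]
  · intro Z hZ
    have hZ' : {w : W | toLex (Sum.inr w : KK ⊕ W) ∈ Z}.Countable := by
      apply Set.Countable.preimage_of_injOn hZ
      intro x _ y _ h
      exact Sum.inr_injective (toLex.injective h)
    obtain ⟨a, ha⟩ := exists_gt_of_countable hZ'
    have key : ∀ c : Bool, ∀ i ∈ Z, i < (toLex (Sum.inr (up c a)) : KK ⊕ₗ W) := by
      intro c i hi
      rcases h : ofLex i with x | w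
      · have h2 : i = toLex (Sum.inl x) := by rw [← h]; rfl
        rw [h2]
        exact Sum.Lex.inl_lt_inr x _
      · have h2 : i = toLex (Sum.inr w) := by rw [← h]; rfl
        rw [h2, Sum.Lex.inr_lt_inr_iff]
        rw [h2] at hi
        exact (ha w hi).trans (hup1 c a)
    exact ⟨a, fun i hi => ⟨key true i hi, key false i hi⟩⟩

end Pool.Agent.Lib.MP_7d369a_lc.Forc
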