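import Pool.Agent.Lib.MP_7d369a_lc.Forc.EXT

/-!
# The generic objects

Module GEN. Proofs: as `uVal`, `genFun`, `mem_genFun` in `MP_62a69e_lc/FSPos.lean`.
`genS.disj`: a condition in both values has extensions `r1 ≥ r2` whose entries at `n` are `e` and
`e'`; stems are only end-extended (`getElem?_of_prefix`), so `e = e'`. `genS.total`:
`exists_extend_stem` with `N = n + 1`. `slalom_genS`: entries of kind `L` satisfy `card ≤ n`, so no
condition has an entry with `n < card`: the value is `⊥` (`RO.eq_bot_iff'`).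
-/

set_option autoImplicit false
set_option linter.unusedSectionVars false

namespace Pool.Agent.Lib.MP_7d369a_lc.Forc

open Pool.Agent.Ladder Pool.Agent.Lib.MP_7d369a_lc.BV

section
variable {K J : Type} {κ : K → Kind} [LinearOrder K] [WellFoundedLT K] (bk : K → Code K J κ)

theorem getElem?_of_le {p q : Po bk} (h : q ≤ p) {j : K} {n : ℕ} {e : Finset ℕ}
    (he : ((p : Cd K J κ).co j).st[n]? = some e) :
    ((q : Cd K J κ).co j).st[n]? = some e := by
  have hn : n < ((p : Cd K J κ).co j).st.length := by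
    by_contra hc
    rw [List.getElem?_eq_none (not_lt.1 hc)] at he
    cases he
  rw [getElem?_of_prefix (h j trivial).1 hn]
  exact he

/-- The Boolean value of: the entry of coordinate `j` at `n` is `e`. -/
noncomputable def entVal (j : K) (n : ℕ) (e : Finset ℕ) : RO (Po bk) :=
  RO.mk' (P := Po bk) (fun p => ((p : Cd K J κ).co j).st[n]? = some e)
    (fun _ _ h hle => getElem?_of_le bk hle h)

theorem mem_entVal {p : Po bk} {j : K} {n : ℕ} {e : Finset ℕ} :
    p ∈ entVal bk j n e ↔ ∀ q : Po bk, q ≤ p → ∃ r : Po bk, r ≤ q ∧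
      ((r : Cd K J κ).co j).st[n]? = some e := Iff.rfl

/-- The generic sequence of finite sets at coordinate `j`. -/
noncomputable def genS (j : K) : BFun (RO (Po bk)) ℕ (Finset ℕ) where
  val n e := entVal bk j n e
  disj := by
    intro n e e' hne
    refine RO.eq_bot_iff'.2 fun p hp => ?_
    obtain ⟨h1, h2⟩ := hp
    obtain ⟨r, hr, hre⟩ := (mem_entVal bk).1 h1 p le_rfl
    obtain ⟨r2, hr2, hre2⟩ := (mem_entVal bk).1 (RO.mem_of_le h2 hr) r le_rfl
    have h3 := getElem?_of_le bk hr2 hre
    rw [h3] at hre2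
    exact hne (Option.some.inj hre2)
  total := by
    intro n
    refine RO.eq_top_iff'.2 fun p => RO.mem_iSup.2 fun q _ => ?_
    obtain ⟨r, hr, hlen, _⟩ := exists_extend_stem (bk := bk) (q : Cd K J κ) j (n + 1)
    have hn : n < (r.co j).st.length := hlen
    refine ⟨r, hr, (r.co j).st[n], (mem_entVal bk).2 fun q' hq' => ⟨q', le_rfl, ?_⟩⟩
    exact getElem?_of_le bk (p := r) hq' (List.getElem?_eq_getElem hn)

/-- The generic function at coordinate `j`: the maxima of the finite sets. -/
noncomputable def genH (j : K) : BFun (RO (Po bk)) ℕ ℕ := mapName (fun _ e => e.sup id) (genS bk j)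

theorem mem_genS {p : Po bk} {j : K} {n : ℕ} {e : Finset ℕ}
    (h : ((p : Cd K J κ).co j).st[n]? = some e) : p ∈ (genS bk j).val n e :=
  (mem_entVal bk).2 fun q hq => ⟨q, le_rfl, getElem?_of_le bk hq h⟩

theorem mem_genH {p : Po bk} {j : K} {n : ℕ} {e : Finset ℕ}
    (h : ((p : Cd K J κ).co j).st[n]? = some e) : p ∈ (genH bk j).val n (e.sup id) := by
  refine RO.mem_iSup.2 fun r1 hr1 => ⟨r1, le_rfl, e, ?_⟩
  refine RO.mem_iSup.2 fun r2 hr2 => ⟨r2, le_rfl, rfl, ?_⟩
  exact RO.mem_of_le (mem_genS bk h) (hr2.trans hr1)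

theorem slalom_genS {j : K} (hκ : κ j = .L) : Slalom (genS bk j) := by
  intro n e hne
  refine RO.eq_bot_iff'.2 fun p hp => ?_
  obtain ⟨r, _, hre⟩ := (mem_entVal bk).1 hp p le_rfl
  have h := (r : Cd K J κ).ok j n e hre
  rw [hκ] at h
  exact absurd h (not_le.2 hne)

end

end Pool.Agent.Lib.MP_7d369a_lc.Forc
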