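import Pool.Agent.Lib.MP_7d369a_lc.Forc.COD
import Pool.Agent.Lib.MP_7d369a_lc.Forc.GEN

/-!
# The generic objects capture the names of their coordinate

Module CAP. Proof of both (compare `exists_unif_two_Po`): given `p`, extend it to `q` with
`β ∈ (q.co j).pr` (`exists_add_promise`), `N := (q.co j).st.length`. For `n ≥ N` and `q' ≤ q` take
`r ≤ q'` whose stem at `j` is longer than `n` (`exists_extend_stem`), `e` its entry at `n`. Since
`r ≤ q`, there is `v` with `Dec (ordF bk j) (bk j β n) r v` and `(κ j).clip n v ∈ e`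
(`ordF_eq`). `dec_sound`: `r ∈ x.val n v`; `mem_genS`: `r ∈ (genS bk j).val n e`. Kind `H`: `clip`
is the identity and `v ≤ e.sup id` (`Finset.le_sup (f := id)`), `mem_genH`. Kind `L`: `v < bd n`
because `x.val n v ≠ ⊥`, so `clip n v = v`.
-/

set_option autoImplicit false
set_option linter.unusedSectionVars false

namespace Pool.Agent.Lib.MP_7d369a_lc.Forc

open Pool.Agent.Ladder Pool.Agent.Lib.MP_7d369a_lc.BV

section
variable {K J : Type} {κ : K → Kind} [LinearOrder K] [WellFoundedLT K] {bk : K → Code K J κ}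

theorem cap_core {j : K} (hκ : κ j ≠ .C) (β : J)
    (hj : ∀ n v m a, bk j β n v m = some a → ∀ i ∈ supp a, i < j)
    {x : BFun (RO (Po bk)) ℕ ℕ} (hS : Codes bk (bk j β) x) (p : Po bk) :
    ∃ q : Po bk, q ≤ p ∧ ∃ N : ℕ, ∀ n, N ≤ n → ∀ q' : Po bk, q' ≤ q → ∃ r : Po bk, r ≤ q' ∧
      ∃ v e, r ∈ x.val n v ∧ r ∈ (genS bk j).val n e ∧ r ∈ (genH bk j).val n (e.sup id) ∧
        (κ j).clip n v ∈ e := by
  obtain ⟨q, hq, hqβ⟩ := exists_add_promise (bk := bk) (p : Cd K J κ) j hκ β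
  refine ⟨q, hq, (q.co j).st.length, fun n hn q' hq' => ?_⟩
  obtain ⟨r, hr, hrl, _⟩ := exists_extend_stem (bk := bk) (q' : Cd K J κ) j (n + 1)
  have hrq : LE' bk Set.univ r q := LE'.trans low_univ hr hq'
  obtain ⟨e, he⟩ : ∃ e, (r.co j).st[n]? = some e :=
    ⟨_, List.getElem?_eq_getElem (show n < (r.co j).st.length by omega)⟩
  obtain ⟨v, hv, hve⟩ := (hrq j trivial).2.2 β hqβ n hn e he
  rw [ordF_eq] at hv
  exact ⟨r, hr, v, e, dec_sound hS j hj hv, mem_genS bk (p := (r : Po bk)) he,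
    mem_genH bk (p := (r : Po bk)) he, hve⟩

theorem leStar_genH {j : K} (hκ : κ j = .H) (β : J)
    (hj : ∀ n v m a, bk j β n v m = some a → ∀ i ∈ supp a, i < j)
    {x : BFun (RO (Po bk)) ℕ ℕ} (hS : Codes bk (bk j β) x) : leStar x (genH bk j) = ⊤ := by
  have hC : κ j ≠ .C := by rw [hκ]; exact fun h => Kind.noConfusion h
  refine RO.eq_top_iff'.2 fun p0 => RO.mem_iSup.2 fun p _ => ?_
  obtain ⟨q, hq, N, hN⟩ := cap_core hC β hj hS p
  refine ⟨q, hq, N, RO.mem_iInf.2 fun n => RO.mem_iInf.2 fun hn => RO.mem_iSup.2 fun q' hq' => ?_⟩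
  obtain ⟨r, hr, v, e, hv, _, he, hve⟩ := hN n hn q' hq'
  have hve' : v ∈ e := by rw [hκ] at hve; exact hve
  refine ⟨r, hr, v, RO.mem_iSup.2 fun r1 hr1 => ⟨r1, le_rfl, e.sup id, ?_⟩⟩
  refine RO.mem_iSup.2 fun r2 hr2 => ⟨r2, le_rfl, Finset.le_sup (f := id) hve', ?_⟩
  exact RO.mem_of_le (RO.mem_inf.2 ⟨hv, he⟩) (hr2.trans hr1)

theorem inStar_genS {j : K} (hκ : κ j = .L) (β : J)
    (hj : ∀ n v m a, bk j β n v m = some a → ∀ i ∈ supp a, i < j)
    {x : BFun (RO (Po bk)) ℕ ℕ} (hS : Codes bk (bk j β) x) (hb : Bdd x) :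
    inStar x (genS bk j) = ⊤ := by
  have hC : κ j ≠ .C := by rw [hκ]; exact fun h => Kind.noConfusion h
  refine RO.eq_top_iff'.2 fun p0 => RO.mem_iSup.2 fun p _ => ?_
  obtain ⟨q, hq, N, hN⟩ := cap_core hC β hj hS p
  refine ⟨q, hq, N, RO.mem_iInf.2 fun n => RO.mem_iInf.2 fun hn => RO.mem_iSup.2 fun q' hq' => ?_⟩
  obtain ⟨r, hr, v, e, hv, he, _, hve⟩ := hN n hn q' hq'
  have hvb : v < bd n := by
    by_contra hcon
    rw [hb n v (not_lt.1 hcon)] at hv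
    exact RO.mem_bot hv
  have hve' : v ∈ e := by
    rw [hκ] at hve
    simpa only [Kind.clip, if_pos hvb] using hve
  refine ⟨r, hr, v, RO.mem_iSup.2 fun r1 hr1 => ⟨r1, le_rfl, e, ?_⟩⟩
  refine RO.mem_iSup.2 fun r2 hr2 => ⟨r2, le_rfl, hve', ?_⟩
  exact RO.mem_of_le (RO.mem_inf.2 ⟨hv, he⟩) (hr2.trans hr1)

end

end Pool.Agent.Lib.MP_7d369a_lc.Forc
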