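import Pool.Agent.Lib.MP_7d369a_lc.Forc.Ord
import Pool.Agent.Lib.MP_62a69e_lc.FSKn

/-!
# Thinning out an uncountable family of conditions

Module THIN. Proof: `delta_system` (in `Pool.Agent.Ladder`, file `MP_62a69e_lc/FSKn.lean`) for `F`
gives an uncountable `E1` and the root `R`. The map sending `a` to
(`g a`, the function `R → List (Finset ℕ) × ℕ`, `i ↦ (((p a).co i).st, ((p a).co i).pr.card)`)
has a countable codomain (`R` is a finite set: functions on the subtype `{i // i ∈ R}`), so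
`exists_uncountable_fiber` gives an uncountable fibre in `E1`.
-/

set_option autoImplicit false
set_option linter.unusedSectionVars false

namespace Pool.Agent.Lib.MP_7d369a_lc.Forc

open Pool.Agent.Ladder Pool.Agent.Lib.MP_7d369a_lc.BV

section
variable {K J : Type} [DecidableEq K] {κ : K → Kind}

theorem thin {ι Y : Type} [Countable Y] {E : Set ι} (hE : ¬ E.Countable) (p : ι → Cd K J κ)
    (F : ι → Finset K) (g : ι → Y) :
    ∃ E' ⊆ E, ¬ E'.Countable ∧
      ∃ (R : Finset K) (t : K → List (Finset ℕ)) (mm : K → ℕ) (y : Y),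
        (∀ a ∈ E', ∀ b ∈ E', a ≠ b → F a ∩ F b = R) ∧
        (∀ a ∈ E', ∀ i ∈ R, ((p a).co i).st = t i ∧ ((p a).co i).pr.card = mm i) ∧
        ∀ a ∈ E', g a = y := by
  classical
  obtain ⟨E1, h1, h2, R, h3⟩ := delta_system hE F
  obtain ⟨y, hy⟩ := exists_uncountable_fiber h2
    (fun a => (g a, fun i : {i // i ∈ R} => (((p a).co i).st, ((p a).co i).pr.card)))
  refine ⟨_, fun a ha => h1 ha.1, hy, R, fun i => if h : i ∈ R then (y.2 ⟨i, h⟩).1 else [],
    fun i => if h : i ∈ R then (y.2 ⟨i, h⟩).2 else 0, y.1,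
    fun a ha b hb hab => h3 a ha.1 b hb.1 hab, ?_, ?_⟩
  · rintro a ⟨-, rfl⟩ i hi
    simp only [dif_pos hi, and_self]
  · rintro a ⟨-, rfl⟩
    rfl

end

end Pool.Agent.Lib.MP_7d369a_lc.Forc
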