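import Pool.Agent.Lib.MP_7d369a_lc.Forc.AMA
import Pool.Agent.Lib.MP_7d369a_lc.Forc.THIN
import Pool.Agent.Lib.MP_62a69e_lc.FSBr

/-!
# The countable chain condition

Module CCC. Proofs.

* `exists_compatible`: `thin` with `F a := supp (p a)`, `g := fun _ => ()`. Let `m`, `n0` bound the
  numbers `mm i` and the lengths of `t i`, `i ∈ R`, and let `L := (EE m n0)^[R.card] 2`. The
  uncountable (so infinite) set `E'` contains an injective image of `Fin L`; apply
  `finite_amalgamation` to it with `k = 2`; two different members of `F` (`Finset.one_lt_card`).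
* `exists_countable_predense`: exactly as `Kn.exists_countable_predense` in
  `MP_62a69e_lc/FSBr.lean` (a maximal set of pairwise incompatible members of `D`, by Zorn; it is
  countable by `exists_compatible` applied to the inclusion).
* `bccc_Po`: as `bccc_Po` in `MP_62a69e_lc/FSBr.lean`: choose a condition in every member of `A`
  (`RO.exists_mem_of_ne_bot`), apply `exists_compatible` to the set `A` itself (index type
  `RO (Po bk)`).
-/

set_option autoImplicit false
set_option linter.unusedSectionVars false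

namespace Pool.Agent.Lib.MP_7d369a_lc.Forc

open Pool.Agent.Ladder Pool.Agent.Lib.MP_7d369a_lc.BV

section
variable {K J : Type} {κ : K → Kind} [LinearOrder K] [WellFoundedLT K] {bk : K → Code K J κ}

variable (bk) in
theorem exists_compatible {ι : Type} {E : Set ι} (hE : ¬ E.Countable) (p : ι → Cd K J κ) :
    ∃ a ∈ E, ∃ b ∈ E, a ≠ b ∧ ∃ q, LE' bk Set.univ q (p a) ∧ LE' bk Set.univ q (p b) := by
  classical
  obtain ⟨E', hE', hunc, R, t, mm, y, h1, h2, -⟩ := thin hE p (fun a => supp (p a)) (fun _ => ())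
  have hinf : E'.Infinite := fun hfin => hunc hfin.countable
  obtain ⟨e⟩ : Nonempty (ℕ ↪ E') := ⟨hinf.natEmbedding E'⟩
  have heq : ∀ i j : ℕ, (e i : ι) = e j → i = j := fun i j h => e.injective (Subtype.ext h)
  obtain ⟨F, q, hF, hq⟩ := finite_amalgamation (bk := bk) (R.sup mm)
    (R.sup fun i => (t i).length) R 2
    (Fin ((EE (R.sup mm) (R.sup fun i => (t i).length))^[R.card] 2)) (fun i => p (e i))
    (by rw [Fintype.card_fin])
    (fun a b hab => by
      have := h1 (e a) (e a).2 (e b) (e b).2 (fun h => hab (Fin.ext (heq _ _ h)))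
      exact this.le)
    (fun i hi a b => by
      rw [(h2 (e a) (e a).2 i hi).1, (h2 (e b) (e b).2 i hi).1])
    (fun i hi a => by
      obtain ⟨g1, g2⟩ := h2 (e a) (e a).2 i hi
      rw [g1, g2]
      exact ⟨Finset.le_sup (f := fun i => (t i).length) hi, Finset.le_sup (f := mm) hi⟩)
  obtain ⟨a, ha, b, hb, hab⟩ := Finset.one_lt_card.1 (lt_of_lt_of_le one_lt_two hF)
  exact ⟨e a, hE' (e a).2, e b, hE' (e b).2, fun h => hab (Fin.ext (heq _ _ h)), q, hq a ha,
    hq b hb⟩

variable (bk) in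
theorem exists_countable_predense (D : Set (Cd K J κ)) :
    ∃ Z ⊆ D, Z.Countable ∧ ∀ d ∈ D, ∃ z ∈ Z, ∃ r, LE' bk Set.univ r d ∧ LE' bk Set.univ r z := by
  classical
  obtain ⟨M, hM⟩ := zorn_subset {M : Set (Cd K J κ) | M ⊆ D ∧
      ∀ a ∈ M, ∀ b ∈ M, a ≠ b → ¬ ∃ r, LE' bk Set.univ r a ∧ LE' bk Set.univ r b} (by
    intro c hc hchain
    refine ⟨⋃₀ c, ⟨Set.sUnion_subset fun s hs => (hc hs).1, ?_⟩, fun s hs =>
      Set.subset_sUnion_of_mem hs⟩
    rintro a ⟨s, hs, has⟩ b ⟨t, ht, hbt⟩ hab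
    rcases hchain.total hs ht with hst | hts
    · exact (hc ht).2 a (hst has) b hbt hab
    · exact (hc hs).2 a has b (hts hbt) hab)
  refine ⟨M, hM.prop.1, ?_, fun d hd => ?_⟩
  · by_contra hcon
    obtain ⟨a, ha, b, hb, hab, q, h1, h2⟩ := exists_compatible bk hcon (fun a => a)
    exact hM.prop.2 a ha b hb hab ⟨q, h1, h2⟩
  by_contra hcon
  push Not at hcon
  have hdM : d ∉ M := fun hdM => hcon d hdM d (LE'.refl bk _ d) (LE'.refl bk _ d)
  have hins : insert d M ∈ {M : Set (Cd K J κ) | M ⊆ D ∧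
      ∀ a ∈ M, ∀ b ∈ M, a ≠ b → ¬ ∃ r, LE' bk Set.univ r a ∧ LE' bk Set.univ r b} := by
    refine ⟨Set.insert_subset hd hM.prop.1, ?_⟩
    rintro x (rfl | hx) y (rfl | hy) hxy
    · exact (hxy rfl).elim
    · rintro ⟨r, hr1, hr2⟩
      exact hcon y hy r hr1 hr2
    · rintro ⟨r, hr1, hr2⟩
      exact hcon x hx r hr2 hr1
    · exact hM.prop.2 x hx y hy hxy
  exact hdM (hM.le_of_ge hins (Set.subset_insert _ _) (Set.mem_insert _ _))

/-- the empty condition -/
theorem nonempty_Cd : Nonempty (Cd K J κ) :=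
  ⟨⟨0, fun i n e h => by simp [Co.zero_st] at h, fun i => by
    cases κ i <;> simp [Kind.Pok, Co.zero_pr]⟩⟩

variable (bk) in
theorem nontrivial_Po : Nontrivial (RO (Po bk)) := by
  obtain ⟨p0⟩ := nonempty_Cd (K := K) (J := J) (κ := κ)
  obtain ⟨p, -⟩ : ∃ p : Po bk, p = p0 := ⟨p0, rfl⟩
  refine ⟨⊥, ⊤, fun h => ?_⟩
  have h1 : p ∈ (⊤ : RO (Po bk)) := RO.mem_top
  rw [← h] at h1
  exact RO.mem_bot h1

variable (bk) in
theorem bccc_Po : BCCC (RO (Po bk)) := by
  classical
  intro A hA hdis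
  by_contra hcon
  obtain ⟨p0⟩ := nonempty_Cd (K := K) (J := J) (κ := κ)
  have hex : ∀ a : RO (Po bk), ∃ x : Po bk, a ∈ A → x ∈ a := by
    intro a
    by_cases ha : a ∈ A
    · obtain ⟨x, hx⟩ := RO.exists_mem_of_ne_bot (hA a ha)
      exact ⟨x, fun _ => hx⟩
    · exact ⟨p0, fun h => (ha h).elim⟩
  choose g hg using hex
  obtain ⟨a, ha, b, hb, hab, r0, h1, h2⟩ := exists_compatible bk hcon g
  obtain ⟨r, hr⟩ : ∃ r : Po bk, r = r0 := ⟨r0, rfl⟩
  subst hr
  have h3 : r ∈ a ⊓ b := ⟨RO.mem_of_le (hg a ha) h1, RO.mem_of_le (hg b hb) h2⟩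
  rw [hdis a ha b hb hab] at h3
  exact RO.mem_bot h3

end

end Pool.Agent.Lib.MP_7d369a_lc.Forc
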