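import Pool.Agent.Lib.MP_7d369a_lc.Forc.CCC

/-!
# Names and their codes

Module COD. Proofs: compare `exists_unif_two_Po` in `MP_62a69e_lc/FSPos.lean`.

* `exists_code`: for every `n`, `v` choose a countable predense subset of
  `{p | p ∈ x.val n v}` (`exists_countable_predense`) and enumerate it with gaps
  (`exists_option_enum` in `MP_62a69e_lc/FSPos.lean`).
* `dec_sound`, `v ≠ 0`: show density below `q`. For `q' ≤ q` the first part of `Dec` gives `r'`
  below `q'` on `Set.Iio j` and a generator `a` with `r'` below `a` on `Set.Iio j`;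
  `glue (Set.Iio j) r' q'` is below `q'` (`glue_le`) and below `a`: on the coordinates of
  `supp a` (all `< j`) as there, elsewhere `a.co i = 0` (`Step.of_zero`). So it is in `x.val n v`.
* `dec_sound`, `v = 0`: for `q' ≤ q` totality of `x` gives `r ≤ q'` with `r ∈ x.val n v'` for some
  `v'`. If `v' ≠ 0` then `Codes` gives a generator `a` and `r'` below `r` and `a`, contradicting
  the second part of `Dec`. So `v' = 0`; `RO.mem_iff_dense`.
-/

set_option autoImplicit false
set_option linter.unusedSectionVars false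

namespace Pool.Agent.Lib.MP_7d369a_lc.Forc

open Pool.Agent.Ladder Pool.Agent.Lib.MP_7d369a_lc.BV

/-- Enumeration of a countable set, allowing gaps. -/
theorem option_enum {X : Type} {Z : Set X} (hZ : Z.Countable) :
    ∃ f : ℕ → Option X, ∀ x, x ∈ Z ↔ ∃ m, f m = some x := by
  classical
  rcases Z.eq_empty_or_nonempty with h0 | hne
  · refine ⟨fun _ => none, fun x => ?_⟩
    simp [h0]
  · obtain ⟨g, hg⟩ := hZ.exists_eq_range hne
    refine ⟨fun m => some (g m), fun x => ?_⟩
    rw [hg]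
    simp

section
variable {K J : Type} {κ : K → Kind} [LinearOrder K] [WellFoundedLT K] (bk : K → Code K J κ)

/-- `S` codes the name `x`. -/
def Codes (S : ℕ → ℕ → ℕ → Option (Cd K J κ)) (x : BFun (RO (Po bk)) ℕ ℕ) : Prop :=
  ∀ n v, v ≠ 0 → (∀ m (a : Po bk), S n v m = some a → a ∈ x.val n v) ∧
    ∀ d : Po bk, d ∈ x.val n v → ∃ m, ∃ a : Po bk, S n v m = some a ∧ ∃ r : Po bk, r ≤ d ∧ r ≤ a

theorem exists_code (x : BFun (RO (Po bk)) ℕ ℕ) : ∃ S, Codes bk S x := by
  have hZ : ∀ y : ℕ × ℕ, ∃ Z : Set (Cd K J κ), (∀ a ∈ Z, (a : Po bk) ∈ x.val y.1 y.2) ∧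
      Z.Countable ∧ ∀ d : Po bk, d ∈ x.val y.1 y.2 →
        ∃ z ∈ Z, ∃ r, LE' bk Set.univ r d ∧ LE' bk Set.univ r z := by
    intro y
    obtain ⟨Z, hZD, hZc, hZp⟩ := exists_countable_predense bk
      {p : Cd K J κ | Membership.mem (γ := RO (Po bk)) (x.val y.1 y.2) p}
    exact ⟨Z, fun a ha => hZD ha, hZc, fun d hd => hZp d hd⟩
  choose Z hZA hZc hZp using hZ
  choose Sn hSn using fun y => option_enum (hZc y)
  refine ⟨fun n v => Sn (n, v), fun n v _ => ⟨fun m a h => ?_, fun d hd => ?_⟩⟩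
  · exact hZA (n, v) a ((hSn (n, v) a).2 ⟨m, h⟩)
  · obtain ⟨z, hz, r, h1, h2⟩ := hZp (n, v) d hd
    obtain ⟨m, hm⟩ := (hSn (n, v) z).1 hz
    exact ⟨m, z, hm, r, h1, h2⟩

variable {bk}

theorem dec_sound {S : ℕ → ℕ → ℕ → Option (Cd K J κ)} {x : BFun (RO (Po bk)) ℕ ℕ}
    (hS : Codes bk S x) (j : K) (hj : ∀ n v m a, S n v m = some a → ∀ i ∈ supp a, i < j)
    {n v : ℕ} {q : Po bk} (h : Dec (LE' bk (Set.Iio j)) (S n) q v) : q ∈ x.val n v := by
  by_cases hv : v = 0
  · subst hv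
    refine RO.mem_iff_dense.2 fun q' hq' => ?_
    have h1 : q' ∈ ⨆ k, x.val n k := by
      rw [x.total]; exact RO.mem_top
    obtain ⟨r, hr, k, hk⟩ := RO.mem_iSup.1 h1 q' le_rfl
    refine ⟨r, hr, ?_⟩
    rcases Nat.eq_zero_or_pos k with hk0 | hk0
    · rw [← hk0]; exact hk
    · exfalso
      obtain ⟨m, a, hm, r', hr', hra⟩ := (hS n k hk0.ne').2 r hk
      exact h.2 k hk0.ne' (Or.inr rfl) m a hm r'
        ((LE'.trans low_univ (LE'.trans low_univ hr' hr) hq').mono (Set.subset_univ _))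
        (LE'.mono (Set.subset_univ _) hra)
  · refine RO.mem_iff_dense.2 fun q' hq' => ?_
    obtain ⟨r', hr', m, a, hm, hra⟩ := h.1 hv q' (LE'.mono (Set.subset_univ _) hq')
    have h2 : LE' bk Set.univ (glue (Set.Iio j) r' q') q' := glue_le (low_Iio j) hr'
    have h3 : LE' bk Set.univ (glue (Set.Iio j) r' q') a := by
      intro i _
      by_cases hi : i ∈ supp a
      · have hij : i ∈ Set.Iio j := hj n v m a hm i hi
        refine (hra i hij).congr ?_ (glue_in hij) rfl
        exact glue_le_left.mono (fun l hl => lt_trans (b := i) hl hij)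
      · exact Step.of_zero (co_eq_zero hi)
    exact ⟨glue (Set.Iio j) r' q', h2, RO.mem_of_le ((hS n v hv).1 m a hm) h3⟩

end

end Pool.Agent.Lib.MP_7d369a_lc.Forc
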