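import Pool.Agent.Lib.MP_7d369a_lc.Forc.Ord

/-!
# Extension lemmas

Module EXT. Proofs.

* `dec_many`: induction on `D` with `exists_dec_below` (extend below `i` one value at a time;
  decisions are inherited: `Dec.mono (LE'.trans_Iio i)`).
* `extend_le`: put `q := upd (glue (Set.Iio i) r p) i c`. Coordinates `j < i`: `q.co j = r.co j`
  and `Step.congr` from `hr` (as in `glue_le`; `q` agrees with `r` below `i`, so `q` is
  `≤` `r` below `j`). Coordinate `i`: `hst`, `hpr`, `hdec`, and the decisions are inherited since
  `q` agrees with `r` below `i`. Coordinates `j > i`: `q.co j = p.co j` (`Step.of_eq`).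
* `exists_extend_stem`: kind `C`: append entries `{0}` (no promises: `Pok` says `card = 0`);
  kind `H`, `L`: decide all values of `β ∈ (p.co i).pr` at `n < N` by `dec_many`; the new entry at
  `n` (from the old length up to `N - 1`) is the image of `(p.co i).pr` under
  `β ↦ (κ i).clip n (V β n)`; for kind `L` its cardinality is at most the number of promises, at
  most the length of the stem, at most `n`. Use `extend_le`.
* `exists_add_promise`: kind `H`: insert `β` directly. Kind `L`: first extend the stem to length
  at least `card + 1` by `exists_extend_stem` (promises unchanged), then insert `β`.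
-/

set_option autoImplicit false
set_option linter.unusedSectionVars false

namespace Pool.Agent.Lib.MP_7d369a_lc.Forc

open Pool.Agent.Ladder Pool.Agent.Lib.MP_7d369a_lc.BV

section
variable {K J : Type} {κ : K → Kind} [LinearOrder K] [WellFoundedLT K] {bk : K → Code K J κ}

theorem dec_many (i : K) (p : Cd K J κ) (D : Finset (J × ℕ)) :
    ∃ r, LE' bk (Set.Iio i) r p ∧ ∃ V : J → ℕ → ℕ, ∀ x ∈ D,
      Dec (LE' bk (Set.Iio i)) (bk i x.1 x.2) r (V x.1 x.2) := by
  classical
  induction D using Finset.induction_on with
  | empty =>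
    exact ⟨p, LE'.refl bk _ p, fun _ _ => 0, fun x hx => absurd hx (Finset.notMem_empty _)⟩
  | insert a D ha ih =>
    obtain ⟨r, hr, V, hV⟩ := ih
    obtain ⟨r', hr', v, hv⟩ := exists_dec_below (bk := bk) i r a.1 a.2
    refine ⟨r', LE'.trans_Iio i _ _ _ hr' hr, fun β n => if (β, n) = a then v else V β n,
      fun x hx => ?_⟩
    by_cases hxa : x = a
    · subst hxa
      have e : (if ((x.1, x.2) : J × ℕ) = x then v else V x.1 x.2) = v := if_pos rfl
      show Dec _ _ _ (if ((x.1, x.2) : J × ℕ) = x then v else V x.1 x.2)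
      rw [e]
      exact hv
    · have hx' : x ∈ D := by
        rcases Finset.mem_insert.1 hx with h | h
        · exact absurd h hxa
        · exact h
      have e : (if ((x.1, x.2) : J × ℕ) = a then v else V x.1 x.2) = V x.1 x.2 := if_neg hxa
      show Dec _ _ _ (if ((x.1, x.2) : J × ℕ) = a then v else V x.1 x.2)
      rw [e]
      exact (hV x hx').mono (LE'.trans_Iio i) hr'

theorem extend_le (i : K) (p r : Cd K J κ) (hr : LE' bk (Set.Iio i) r p) (c : Co J)
    (h1 : ∀ n e, c.st[n]? = some e → (κ i).Ok n e) (h2 : (κ i).Pok c.st.length c.pr.card)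
    (hst : (p.co i).st <+: c.st) (hpr : (p.co i).pr ⊆ c.pr)
    (hdec : ∀ β ∈ (p.co i).pr, ∀ n, (p.co i).st.length ≤ n → ∀ e, c.st[n]? = some e →
      ∃ v, Dec (LE' bk (Set.Iio i)) (bk i β n) r v ∧ (κ i).clip n v ∈ e) :
    LE' bk Set.univ (upd (glue (Set.Iio i) r p) i c h1 h2) p := by
  have hag : LE' bk (Set.Iio i) (upd (glue (Set.Iio i) r p) i c h1 h2) r := by
    apply Agree.le
    intro j hj
    rw [upd_ne (ne_of_lt hj), glue_in hj]
  intro j _
  rcases lt_trichotomy j i with hj | hj | hj
  · refine (hr j hj).congr ?_ ?_ rfl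
    · exact hag.mono (fun k hk => lt_trans hk hj)
    · rw [upd_ne (ne_of_lt hj), glue_in (I := Set.Iio i) hj]
  · subst hj
    rw [ordF_eq]
    refine ⟨?_, ?_, ?_⟩
    · rw [upd_self]
      exact hst
    · rw [upd_self]
      exact hpr
    · rw [upd_self]
      intro β hβ n hn e he
      obtain ⟨v, hv, hve⟩ := hdec β hβ n hn e he
      exact ⟨v, hv.mono (LE'.trans_Iio j) hag, hve⟩
  · apply Step.of_eq
    rw [upd_ne (ne_of_gt hj), glue_out (I := Set.Iio i) (fun h => lt_asymm hj h)]

/-- entries appended to a stem -/
theorem ext_getElem? (st : List (Finset ℕ)) (f : ℕ → Finset ℕ) (N n : ℕ) (e : Finset ℕ)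
    (h : (st ++ (List.range' st.length (N - st.length)).map f)[n]? = some e) :
    (n < st.length ∧ st[n]? = some e) ∨ (st.length ≤ n ∧ n < N ∧ e = f n) := by
  by_cases hn : n < st.length
  · rw [List.getElem?_append_left hn] at h
    exact Or.inl ⟨hn, h⟩
  · have hn' := not_lt.1 hn
    rw [List.getElem?_append_right hn', List.getElem?_map] at h
    by_cases h3 : n - st.length < N - st.length
    · rw [List.getElem?_range' h3] at h
      refine Or.inr ⟨hn', by omega, ?_⟩
      have h4 : st.length + 1 * (n - st.length) = n := by omega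
      rw [h4] at h
      exact (Option.some.inj h).symm
    · rw [List.getElem?_eq_none (by rw [List.length_range']; omega)] at h
      exact absurd h (by simp)

theorem exists_extend_stem (p : Cd K J κ) (i : K) (N : ℕ) :
    ∃ q, LE' bk Set.univ q p ∧ N ≤ (q.co i).st.length ∧ (q.co i).pr = (p.co i).pr := by
  classical
  obtain ⟨r, hr, V, hV⟩ := dec_many (bk := bk) i p ((p.co i).pr ×ˢ Finset.range N)
  set st := (p.co i).st with hst
  set pr := (p.co i).pr with hpr
  set f : ℕ → Finset ℕ := fun n => if κ i = .C then {0} else pr.image (fun β => (κ i).clip n (V β n))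
    with hf
  have hfC : κ i = .C → ∀ n, f n = {0} := fun h n => if_pos h
  have hfN : κ i ≠ .C → ∀ n, f n = pr.image (fun β => (κ i).clip n (V β n)) :=
    fun h n => if_neg h
  set c : Co J := ⟨st ++ (List.range' st.length (N - st.length)).map f, pr⟩ with hc
  have hlen : st.length ≤ c.st.length := by
    rw [hc]
    simp
  have hpok := p.pok i
  have h1 : ∀ n e, c.st[n]? = some e → (κ i).Ok n e := by
    intro n e he
    rcases ext_getElem? st f N n e he with ⟨_, h⟩ | ⟨h3, h4, h⟩
    · exact p.ok i n e h
    · rw [h]
      rcases hk : κ i with _ | _ | _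
      · exact ⟨0, hfC hk n⟩
      · trivial
      · rw [hk] at hpok
        show Finset.card _ ≤ n
        rw [hfN (by rw [hk]; exact fun h => by cases h) n]
        exact Finset.card_image_le.trans (le_trans hpok h3)
  have h2 : (κ i).Pok c.st.length c.pr.card := by
    rcases hk : κ i with _ | _ | _
    · rw [hk] at hpok
      exact hpok
    · trivial
    · rw [hk] at hpok
      exact le_trans hpok hlen
  refine ⟨upd (glue (Set.Iio i) r p) i c h1 h2, extend_le i p r hr c h1 h2 ?_ ?_ ?_, ?_, ?_⟩
  · exact List.prefix_append _ _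
  · exact subset_rfl
  · intro β hβ n hn e he
    rcases ext_getElem? st f N n e he with ⟨h, _⟩ | ⟨h3, h4, h⟩
    · exact absurd h (not_lt.2 hn)
    · refine ⟨V β n, hV (β, n) ?_, ?_⟩
      · exact Finset.mem_product.2 ⟨hβ, Finset.mem_range.2 h4⟩
      · rw [h]
        have hk : κ i ≠ .C := by
          intro hk
          rw [hk] at hpok
          have h5 : (p.co i).pr = ∅ := Finset.card_eq_zero.1 hpok
          rw [h5] at hβ
          exact Finset.notMem_empty _ hβ
        rw [hfN hk n]
        exact Finset.mem_image_of_mem (fun β => (κ i).clip n (V β n)) hβ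
  · rw [upd_self, hc]
    simp only [List.length_append, List.length_map, List.length_range']
    omega
  · rw [upd_self]

theorem exists_add_promise (p : Cd K J κ) (i : K) (hκ : κ i ≠ .C) (β : J) :
    ∃ q, LE' bk Set.univ q p ∧ β ∈ (q.co i).pr := by
  classical
  obtain ⟨q, hq, hN, hpr⟩ := exists_extend_stem (bk := bk) p i ((p.co i).pr.card + 1)
  have h2 : (κ i).Pok (q.co i).st.length (insert β (q.co i).pr).card := by
    rcases hk : κ i with _ | _ | _
    · exact absurd hk hκ
    · trivial
    · show (insert β (q.co i).pr).card ≤ (q.co i).st.length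
      refine (Finset.card_insert_le _ _).trans ?_
      rw [hpr]
      exact hN
  refine ⟨upd (glue (Set.Iio i) q q) i ⟨(q.co i).st, insert β (q.co i).pr⟩ (q.ok i) h2, ?_, ?_⟩
  · refine LE'.trans low_univ (extend_le i q q (LE'.refl bk _ q)
      ⟨(q.co i).st, insert β (q.co i).pr⟩ (q.ok i) h2 ?_ ?_ ?_) hq
    · exact List.prefix_rfl
    · exact Finset.subset_insert _ _
    · intro β' _ n hn e he
      exact absurd (show (q.co i).st[n]? = some e from he)
        (by rw [List.getElem?_eq_none hn]; exact fun h => by cases h)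
  · rw [upd_self]
    exact Finset.mem_insert_self _ _

end

end Pool.Agent.Lib.MP_7d369a_lc.Forc
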