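import Pool.Agent.Lib.MP_7d369a_lc.Forc.AMA

/-!
# The numerical lemma

Module NUM. `EE m n0 k = k * cls (max n0 (k * m))`, `cls N = ∏ n < N, 2 ^ bd n`,
`bd n = 2 ^ 2 ^ 2 ^ n = ex 3 n`.

`ex k n = (fun m => 2 ^ m)^[k] n`, `Fast f` says `∀ k N, ∃ n, N ≤ n ∧ ex k n < f n`.

Proof. (1) `ex` is monotone in both arguments and `ex k (ex l n) = ex (k + l) n`, `n ≤ ex k n`.
(2) There is `k0` (for instance `max n0 m + 4`) with `EE m n0 k ≤ ex 8 k` for all `k ≥ k0`:
`max n0 (k * m) ≤ k * k =: N`, `cls N ≤ 2 ^ (N * bd N) ≤ 2 ^ 2 ^ (N + 2 ^ 2 ^ N)` ..., and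
`k * k ≤ 2 ^ k` for `k ≥ 4`; be generous. (3) By induction on `r`:
`(EE m n0)^[r] k ≤ ex (8 * r) k` for `k ≥ k0`. Here `EE m n0` is monotone in `k`; or use
`(EE m n0)^[r + 1] k = EE m n0 ((EE m n0)^[r] k)` (`Function.iterate_succ_apply'`) and
`(EE m n0)^[r] k ≥ k ≥ k0` (as `1 ≤ cls N`), then
`ex 8 ((EE m n0)^[r] k) ≤ ex 8 (ex (8 * r) k)`. (4) Apply `hf` with `8 * r + 1` and
`max N (k0 + 4)`: `ex (8 * r) (j + 1) ≤ ex (8 * r) (2 ^ j) = ex (8 * r + 1) j < f j ≤ 2 ^ f j`.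
-/

set_option autoImplicit false

namespace Pool.Agent.Lib.MP_7d369a_lc.Forc

open Pool.Agent.Lib.MP_7d369a_lc.BV

theorem ex_zero (n : ℕ) : ex 0 n = n := rfl

theorem ex_succ (k n : ℕ) : ex (k + 1) n = 2 ^ ex k n := by
  unfold ex
  rw [Function.iterate_succ_apply']

theorem ex_succ' (k n : ℕ) : ex (k + 1) n = ex k (2 ^ n) := by
  unfold ex
  rw [Function.iterate_succ_apply]

theorem ex_add (k l n : ℕ) : ex k (ex l n) = ex (k + l) n := by
  unfold ex
  rw [Function.iterate_add_apply]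

theorem ex_mono (k : ℕ) : ∀ {n n' : ℕ}, n ≤ n' → ex k n ≤ ex k n' := by
  induction k with
  | zero =>
    intro n n' h
    exact h
  | succ k ih =>
    intro n n' h
    rw [ex_succ, ex_succ]
    exact Nat.pow_le_pow_right (by norm_num) (ih h)

theorem le_ex (k n : ℕ) : n ≤ ex k n := by
  induction k with
  | zero => exact le_rfl
  | succ k ih =>
    rw [ex_succ]
    exact ih.trans Nat.lt_two_pow_self.le

theorem num_sq_le (x : ℕ) (hx : 4 ≤ x) : x * x ≤ 2 ^ x := by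
  induction x, hx using Nat.le_induction with
  | base => norm_num
  | succ x hx ih =>
    rw [pow_succ]
    nlinarith

theorem bd_mono {a b : ℕ} (h : a ≤ b) : bd a ≤ bd b := by
  unfold bd
  exact Nat.pow_le_pow_right (by norm_num) (Nat.pow_le_pow_right (by norm_num)
    (Nat.pow_le_pow_right (by norm_num) h))

theorem one_le_cls (N : ℕ) : 1 ≤ cls N :=
  Nat.one_le_iff_ne_zero.2 (Finset.prod_ne_zero_iff.2 fun _ _ => by positivity)

theorem cls_le (N : ℕ) : cls N ≤ 2 ^ (N * bd N) := by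
  unfold cls
  have h : ∀ n ∈ Finset.range N, 2 ^ bd n ≤ 2 ^ bd N := fun n hn =>
    Nat.pow_le_pow_right (by norm_num) (bd_mono (Finset.mem_range.1 hn).le)
  have h2 := Finset.prod_le_pow_card (Finset.range N) (fun n => 2 ^ bd n) (2 ^ bd N) h
  rw [Finset.card_range, ← pow_mul, mul_comm] at h2
  exact h2

theorem EE_le (m n0 k : ℕ) (hn : n0 ≤ k) (hm : m ≤ k) (hk : 4 ≤ k) : EE m n0 k ≤ ex 7 k := by
  have hN : max n0 (k * m) ≤ 2 ^ k := by
    refine max_le (hn.trans Nat.lt_two_pow_self.le) ?_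
    exact (Nat.mul_le_mul_left k hm).trans (num_sq_le k hk)
  have h1 : cls (max n0 (k * m)) ≤ ex 6 k := by
    refine (cls_le _).trans ?_
    rw [ex_succ 5 k, ex_succ 4 k]
    refine Nat.pow_le_pow_right (by norm_num) ?_
    have h2 : max n0 (k * m) ≤ ex 4 k := by
      refine hN.trans ?_
      rw [ex_succ' 3 k]
      exact le_ex 3 _
    have h3 : bd (max n0 (k * m)) ≤ ex 4 k := by
      refine (bd_mono hN).trans ?_
      rw [ex_succ' 3 k]
      exact le_rfl
    exact (Nat.mul_le_mul h2 h3).trans (num_sq_le _ (hk.trans (le_ex 4 k)))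
  unfold EE
  refine (Nat.mul_le_mul (le_ex 6 k) h1).trans ?_
  rw [ex_succ 6 k]
  exact num_sq_le _ (hk.trans (le_ex 6 k))

theorem le_EE_iter (m n0 r k : ℕ) : k ≤ (EE m n0)^[r] k := by
  induction r with
  | zero => exact le_rfl
  | succ r ih =>
    rw [Function.iterate_succ_apply']
    refine ih.trans ?_
    unfold EE
    exact Nat.le_mul_of_pos_right _ (one_le_cls _)

theorem EE_iter_le (m n0 r k : ℕ) (hn : n0 ≤ k) (hm : m ≤ k) (hk : 4 ≤ k) :
    (EE m n0)^[r] k ≤ ex (7 * r) k := by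
  induction r with
  | zero => exact le_rfl
  | succ r ih =>
    rw [Function.iterate_succ_apply']
    have h := le_EE_iter m n0 r k
    refine (EE_le m n0 _ (hn.trans h) (hm.trans h) (hk.trans h)).trans ?_
    refine (ex_mono 7 ih).trans ?_
    rw [ex_add, show 7 + 7 * r = 7 * (r + 1) by ring]

theorem exists_level (f : ℕ → ℕ) (hf : Fast f) (m n0 r N : ℕ) :
    ∃ j, N ≤ j ∧ (EE m n0)^[r] (j + 1) ≤ 2 ^ f j := by
  obtain ⟨j, hj, h⟩ := hf (7 * r + 1) (max N (n0 + m + 4))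
  have h1 : N ≤ j := (le_max_left _ _).trans hj
  have h2 : n0 + m + 4 ≤ j := (le_max_right _ _).trans hj
  refine ⟨j, h1, ?_⟩
  refine (EE_iter_le m n0 r (j + 1) (by omega) (by omega) (by omega)).trans ?_
  have h3 : j + 1 ≤ 2 ^ j := Nat.lt_two_pow_self
  refine (ex_mono (7 * r) h3).trans ?_
  rw [← ex_succ']
  exact h.le.trans Nat.lt_two_pow_self.le

end Pool.Agent.Lib.MP_7d369a_lc.Forc
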