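import Pool.Agent.Lib.MP_7d369a_lc.Forc.THIN
import Pool.Agent.Lib.MP_7d369a_lc.Forc.GEN
import Pool.Agent.Lib.MP_7d369a_lc.Forc.NUM

/-!
# The Cohen reals are not captured by slaloms

Module UNB. Proof. Suppose the set `E` of all `a` with `modStar ... ≠ ⊥` is uncountable. For `a ∈ E`
choose `N a` and a condition `p a` in `⨅ n ≥ N a, ⨆ v, ⨆ e, ⨆ (v ∈ e), ...`
(`RO.exists_mem_of_ne_bot`, `RO.mem_iSup`). Apply `thin` with `F a := insert (g a) (supp (p a))`
and the countable data (`N a`, length of the stem of `p a` at `g a`): uncountable `E'`, root `R`,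
`N`, `l`. Let `m`, `n0` bound the `mm i` and the lengths of `t i`, `i ∈ R`. By `exists_level`
there is `j ≥ max N l` with `L := (EE m n0)^[R.card] (j + 1) ≤ 2 ^ f j`. Choose an injection
`s : Fin L → ι` into `E' \ {a | g a ∈ R}` (`g` is injective and `R` finite, so this set is still
infinite). Let `p' u` (`u : Fin L`) be `p (s u)` with the stem at `g (s u)` replaced by
old stem (length `l`) ++ `replicate (j - l) {0}` ++ `[{(u : ℕ)}]` (kind `C`: no promises; `upd`).
Then `p' u ≤ p (s u)` (`upd_le`), the supports satisfy `supp (p' u) ⊆ F (s u)`, so they meet in a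
subset of `R`, and at coordinates of `R` nothing changed (`g (s u) ∉ R`).
`finite_amalgamation` with `k = j + 1`: a set `F` of at least `j + 1` indices `u` and a common
extension `q`. For every `u ∈ F`: `q` is in the value of
`⨆ v, ⨆ e, ⨆ (v % 2 ^ f j ∈ e), (genH bk (g (s u))).val j v ⊓ S.val j e`. Let `q0 ≤ q` and `e0` with
`q0 ∈ S.val j e0` (totality). Every `u ∈ F` satisfies `(u : ℕ) ∈ e0`: extend `q0` to `r` with
`r ∈ (genH ..).val j v ⊓ S.val j e`, `v % 2 ^ f j ∈ e`; `e = e0` by `S.disj`; the entry of `r` at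
`g (s u)`, `j` is `{u}`, so `r ∈ (genH bk (g (s u))).val j u` (`mem_genH`), `v = u` by `disj`, and
`u < L ≤ 2 ^ f j`, so `u % 2 ^ f j = u`. Hence `j + 1 ≤ F.card ≤ e0.card`, contradicting `Slalom S`.
-/

set_option autoImplicit false
set_option linter.unusedSectionVars false

namespace Pool.Agent.Lib.MP_7d369a_lc.Forc

open Pool.Agent.Ladder Pool.Agent.Lib.MP_7d369a_lc.BV

section
variable {K J : Type} {κ : K → Kind} [LinearOrder K] [WellFoundedLT K] {bk : K → Code K J κ}

theorem unbounded {Gam : Type} (g : Gam → K) (hg : Function.Injective g)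
    (hC : ∀ a, κ (g a) = .C) (f : ℕ → ℕ) (hf : Fast f)
    (S : BFun (RO (Po bk)) ℕ (Finset ℕ)) (hS : Slalom S) :
    {a | modStar f (genH bk (g a)) S ≠ ⊥}.Countable := by
  classical
  by_contra hunc
  obtain ⟨E, hE⟩ : ∃ E : Set Gam, E = {a | modStar f (genH bk (g a)) S ≠ ⊥} := ⟨_, rfl⟩
  rw [← hE] at hunc
  have hEne : E.Nonempty := by
    rw [Set.nonempty_iff_ne_empty]
    rintro h
    exact hunc (by rw [h]; exact Set.countable_empty)
  obtain ⟨a0, ha0⟩ := hEne
  obtain ⟨p0, -⟩ : ∃ p : Po bk, p ∈ modStar f (genH bk (g a0)) S := by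
    apply RO.exists_mem_of_ne_bot
    rw [hE] at ha0
    exact ha0
  -- the conditions and the thresholds
  have h1 : ∀ a, ∃ x : ℕ × Po bk, a ∈ E → x.2 ∈ ⨅ n : ℕ, ⨅ (_ : x.1 ≤ n), ⨆ v : ℕ,
      ⨆ e : Finset ℕ, ⨆ (_ : v % 2 ^ f n ∈ e), (genH bk (g a)).val n v ⊓ S.val n e := by
    intro a
    by_cases ha : a ∈ E
    · have ha' : modStar f (genH bk (g a)) S ≠ ⊥ := by rw [hE] at ha; exact ha
      obtain ⟨p, hp⟩ := RO.exists_mem_of_ne_bot ha'
      obtain ⟨q, hq, N, hN⟩ := RO.mem_iSup.1 hp p le_rfl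
      exact ⟨(N, q), fun _ => hN⟩
    · exact ⟨(0, p0), fun h => absurd h ha⟩
  choose x hx using h1
  let P : Gam → Cd K J κ := fun a => (x a).2
  obtain ⟨E', hE', hunc', R, t, mm, y, hR, hdat, hy⟩ :=
    thin (κ := κ) hunc P (fun a => insert (g a) (supp (P a)))
      (fun a => ((x a).1, ((P a).co (g a)).st.length))
  let m := R.sup mm
  let n0 := R.sup fun i => (t i).length
  obtain ⟨j, hj, hL⟩ := exists_level f hf m n0 R.card (max y.1 y.2)
  obtain ⟨L, hLdef⟩ : ∃ L, L = (EE m n0)^[R.card] (j + 1) := ⟨_, rfl⟩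
  rw [← hLdef] at hL
  have hjN : y.1 ≤ j := (le_max_left _ _).trans hj
  have hjl : y.2 ≤ j := (le_max_right _ _).trans hj
  -- an infinite subset avoiding the root
  have hinf : (E' \ {a | g a ∈ R}).Infinite := by
    have hfin : {a | g a ∈ R}.Finite := (R.finite_toSet).preimage hg.injOn
    intro hf'
    apply hunc'
    have : E' ⊆ (E' \ {a | g a ∈ R}) ∪ {a | g a ∈ R} := by
      intro a ha
      by_cases h : g a ∈ R
      · exact Or.inr h
      · exact Or.inl ⟨ha, h⟩
    exact (hf'.union hfin).countable.mono this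
  let s0 := hinf.natEmbedding
  let s : Fin L → Gam := fun u => (s0 u).1
  have hs : Function.Injective s := by
    intro u u' h
    have := s0.injective (Subtype.ext h)
    exact Fin.ext this
  have hsE : ∀ u, s u ∈ E' := fun u => (s0 u).2.1
  have hsR : ∀ u, g (s u) ∉ R := fun u => (s0 u).2.2
  have hlen : ∀ u, ((P (s u)).co (g (s u))).st.length = y.2 := fun u => by
    rw [← hy (s u) (hsE u)]
  have hpr : ∀ u, ((P (s u)).co (g (s u))).pr = ∅ := by
    intro u
    have h := (P (s u)).pok (g (s u))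
    rw [hC] at h
    exact Finset.card_eq_zero.1 h
  -- the new coordinates
  let c : Fin L → Co J := fun u =>
    ⟨((P (s u)).co (g (s u))).st ++ List.replicate (j - y.2) {0} ++ [{(u : ℕ)}], ∅⟩
  have hcok : ∀ u, ∀ n e, (c u).st[n]? = some e → (κ (g (s u))).Ok n e := by
    intro u n e he
    rw [hC]
    have hmem : e ∈ (c u).st := List.mem_of_getElem? he
    simp only [c, List.mem_append, List.mem_replicate, List.mem_singleton] at hmem
    rcases hmem with (hmem | ⟨-, hmem⟩) | hmem
    · obtain ⟨n', hn'⟩ := List.mem_iff_getElem?.1 hmem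
      have := (P (s u)).ok (g (s u)) n' e hn'
      rw [hC] at this
      exact this
    · exact ⟨0, hmem⟩
    · exact ⟨u, hmem⟩
  have hcpok : ∀ u, (κ (g (s u))).Pok (c u).st.length (c u).pr.card := by
    intro u
    rw [hC]
    rfl
  let p' : Fin L → Cd K J κ := fun u => upd (P (s u)) (g (s u)) (c u) (hcok u) (hcpok u)
  have hp'le : ∀ u, LE' bk Set.univ (p' u) (P (s u)) := by
    intro u
    apply upd_le
    refine ⟨?_, ?_, ?_⟩
    · rw [upd_self]
      simp only [c, List.append_assoc]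
      exact List.prefix_append _ _
    · rw [hpr]
      exact Finset.empty_subset _
    · intro β hβ
      rw [hpr] at hβ
      exact absurd hβ (Finset.notMem_empty _)
  have hentry : ∀ u, ((p' u).co (g (s u))).st[j]? = some {(u : ℕ)} := by
    intro u
    simp only [p']
    rw [upd_self]
    simp only [c]
    have hl : (((P (s u)).co (g (s u))).st ++ List.replicate (j - y.2) {0}).length = j := by
      rw [List.length_append, List.length_replicate, hlen]
      omega
    rw [List.getElem?_append_right (by rw [hl]), hl]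
    simp
  have hsupp : ∀ u, supp (p' u) ⊆ insert (g (s u)) (supp (P (s u))) := by
    intro u i hi
    rw [Finset.mem_insert]
    by_cases h : i = g (s u)
    · exact Or.inl h
    · right
      have h2 : (p' u).co i = (P (s u)).co i := upd_ne h
      have h3 : (p' u).co i ≠ 0 := Finsupp.mem_support_iff.1 hi
      rw [h2] at h3
      exact Finsupp.mem_support_iff.2 h3
  have hroot : ∀ i ∈ R, ∀ u, (p' u).co i = (P (s u)).co i := by
    intro i hi u
    apply upd_ne
    rintro rfl
    exact hsR u hi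
  obtain ⟨F, q, hF, hq⟩ := finite_amalgamation (bk := bk) m n0 R (j + 1) (Fin L) p'
    (by rw [Fintype.card_fin, hLdef])
    (by
      intro u u' hne
      have h := hR (s u) (hsE u) (s u') (hsE u') (fun h => hne (hs h))
      rw [← h]
      exact Finset.inter_subset_inter (hsupp u) (hsupp u'))
    (by
      intro i hi u u'
      rw [hroot i hi, hroot i hi, (hdat _ (hsE u) i hi).1, (hdat _ (hsE u') i hi).1])
    (by
      intro i hi u
      rw [hroot i hi, (hdat _ (hsE u) i hi).1, (hdat _ (hsE u) i hi).2]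
      exact ⟨Finset.le_sup (f := fun i => (t i).length) hi, Finset.le_sup (f := mm) hi⟩)
  -- the value of the slalom
  obtain ⟨Q, hQ⟩ : ∃ Q : Po bk, Q = q := ⟨q, rfl⟩
  have hQp' : ∀ u ∈ F, LE' bk Set.univ Q (p' u) := fun u hu => by rw [hQ]; exact hq u hu
  have htot : Q ∈ ⨆ e, S.val j e := by
    rw [S.total]; exact RO.mem_top
  obtain ⟨Q0, hQ0, e0, he0⟩ := RO.mem_iSup.1 htot Q le_rfl
  have hmem : ∀ u ∈ F, (u : ℕ) ∈ e0 := by
    intro u hu
    have hE1 : s u ∈ E := hE' (hsE u)
    have hyN : (x (s u)).1 ≤ j := by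
      have := hy (s u) (hsE u)
      have h2 : (x (s u)).1 = y.1 := congrArg Prod.fst this
      rw [h2]; exact hjN
    have hle : Q ≤ (x (s u)).2 := LE'.trans low_univ (hQp' u hu) (hp'le u)
    have h2 := RO.mem_of_le (RO.mem_iInf.1 (RO.mem_iInf.1 (hx (s u) hE1) j) hyN) hle
    obtain ⟨r1, hr1, v, hv⟩ := RO.mem_iSup.1 h2 Q0 hQ0
    obtain ⟨r2, hr2, e, he⟩ := RO.mem_iSup.1 hv r1 le_rfl
    obtain ⟨r3, hr3, hve, hr⟩ := RO.mem_iSup.1 he r2 le_rfl
    have hr3Q0 : r3 ≤ Q0 := hr3.trans (hr2.trans hr1)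
    obtain ⟨hA, hB⟩ := RO.mem_inf.1 hr
    have hee : e = e0 := by
      by_contra hne
      have h3 : r3 ∈ S.val j e ⊓ S.val j e0 := RO.mem_inf.2 ⟨hB, RO.mem_of_le he0 hr3Q0⟩
      rw [S.disj j e e0 hne] at h3
      exact RO.mem_bot h3
    have hr3p : r3 ≤ (p' u : Po bk) := (hr3Q0.trans hQ0).trans (hQp' u hu)
    have hent : ((r3 : Cd K J κ).co (g (s u))).st[j]? = some {(u : ℕ)} :=
      getElem?_of_le bk hr3p (hentry u)
    have hG := mem_genH bk hent
    rw [Finset.sup_singleton, id] at hG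
    have hvu : v = u := by
      by_contra hne
      have h3 : r3 ∈ (genH bk (g (s u))).val j v ⊓ (genH bk (g (s u))).val j u :=
        RO.mem_inf.2 ⟨hA, hG⟩
      rw [(genH bk (g (s u))).disj j v u hne] at h3
      exact RO.mem_bot h3
    rw [hvu, hee, Nat.mod_eq_of_lt (lt_of_lt_of_le u.2 hL)] at hve
    exact hve
  have hcard : F.card ≤ e0.card :=
    Finset.card_le_card_of_injOn (fun u : Fin L => (u : ℕ)) hmem (fun u _ u' _ h => Fin.ext h)
  rw [hS j e0 (lt_of_lt_of_le (Nat.lt_succ_self j) (hF.trans hcard))] at he0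
  exact RO.mem_bot he0

end

end Pool.Agent.Lib.MP_7d369a_lc.Forc
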