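import Pool.Agent.Lib.MP_7d369a_lc.Forc.CAP
import Pool.Agent.Lib.MP_7d369a_lc.Forc.UNB
import Pool.Agent.Lib.MP_7d369a_lc.Forc.BKA

/-!
# The first algebra

Module MNA. `B := RO (Po bk)` for the bookkeeping of BKA. `Nontrivial`: as at the end of
`Pool/Agent/Results/MP_62a69e_lc/ConsistentSeparation.lean`. DOM: for `x : W → names` choose codes
`S a` (`exists_code`); all conditions in all `S a n v m` (an index set of cardinality `ℵ₁`) have
finite supports, so there is `i` above all of them (`exists_gt_KK_range`, as in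
`exists_unif_two_Po`); the bookkeeping gives `j > i` of kind `H` with `bk j = S`; `h := genH bk j`,
`leStar_genH`. LOC: the same with kind `L`, `genS bk j`, `slalom_genS`, `inStar_genS`. UNB:
`c a := genH bk (g a)`, `unbounded`.
-/

set_option autoImplicit false

namespace Pool.Agent.Lib.MP_7d369a_lc.Forc

open Pool.Agent.Ladder Pool.Agent.Lib.MP_7d369a_lc.BV

open Cardinal in
/-- all conditions in a family of `ℵ₁` codes are bounded -/
theorem mna_bound {κ : KK → Kind} (S : Code KK W κ) :
    ∃ i : KK, ∀ a n v m c, S a n v m = some c → ∀ k ∈ supp c, k < i := by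
  classical
  have h1 : ∀ x : W × ℕ × ℕ × ℕ, ∃ i : KK, ∀ c, S x.1 x.2.1 x.2.2.1 x.2.2.2 = some c →
      ∀ k ∈ supp c, k < i := by
    intro x
    cases hx : S x.1 x.2.1 x.2.2.1 x.2.2.2 with
    | none =>
      obtain ⟨i, -⟩ := exists_gt_KK ∅ (by rw [mk_emptyCollection]; exact zero_le')
      exact ⟨i, fun c hc => by cases hc⟩
    | some c =>
      obtain ⟨i, hi⟩ := exists_gt_KK (supp c : Set KK)
        (((supp c).countable_toSet.le_aleph0).trans (aleph0_le_aleph 1))
      refine ⟨i, fun c' hc' k hk => ?_⟩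
      cases hc'
      exact hi k hk
  choose f hf using h1
  have hW : #(W × ℕ × ℕ × ℕ) ≤ ℵ₁ := by
    have h2 : #W = ℵ₁ := by simp [W]
    simp only [mk_prod, Cardinal.lift_id, mk_nat, h2, aleph0_mul_aleph0]
    rw [mul_aleph0_eq (aleph0_le_aleph 1)]
  obtain ⟨i, hi⟩ := exists_gt_KK_range hW f
  exact ⟨i, fun a n v m c hc k hk => (hf (a, n, v, m) c hc k hk).trans (hi _)⟩

theorem interfaceA : ∃ (B : Type) (_ : CompleteBooleanAlgebra B), Nontrivial B ∧ BCCC B ∧
    HitAll B ∧ Unb B W := by
  obtain ⟨κ, bk, hbk, g, hg, hgC⟩ := exists_bookkeeping_A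
  refine ⟨RO (Po bk), inferInstance, nontrivial_Po bk, bccc_Po bk, ⟨?_, ?_⟩,
    fun a => genH bk (g a), fun f hf S hS => unbounded g hg hgC f hf S hS⟩
  · intro x
    choose S hS using fun a => exists_code bk (x a)
    obtain ⟨i, hi⟩ := mna_bound S
    obtain ⟨j, hij, hκ, hb⟩ := hbk .H S i
    refine ⟨genH bk j, fun a => leStar_genH hκ a ?_ ?_⟩
    · intro n v m c hc k hk
      rw [hb] at hc
      exact (hi a n v m c hc k hk).trans hij
    · rw [hb]
      exact hS a
  · intro x hx
    choose S hS using fun a => exists_code bk (x a)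
    obtain ⟨i, hi⟩ := mna_bound S
    obtain ⟨j, hij, hκ, hb⟩ := hbk .L S i
    refine ⟨genS bk j, slalom_genS bk hκ, fun a => inStar_genS hκ a ?_ ?_ (hx a)⟩
    · intro n v m c hc k hk
      rw [hb] at hc
      exact (hi a n v m c hc k hk).trans hij
    · rw [hb]
      exact hS a

end Pool.Agent.Lib.MP_7d369a_lc.Forc
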