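import Pool.Agent.Lib.MP_7d369a_lc.Forc.CAP
import Pool.Agent.Lib.MP_7d369a_lc.Forc.UNB
import Pool.Agent.Lib.MP_7d369a_lc.Forc.BKB

/-!
# The second algebra

Module MNB. `B := RO (Po bk)` with `bk := fun _ => e` for the bookkeeping of BKB. DOM:
`h a := genH bk (hh a)`; given `x`, choose a code `S` (`exists_code`), `β` with `e β = S`; the
supports of the countably many conditions in `S` form a countable set `Z`; take `a` from the last
clause; `leStar_genH` for `j := hh a`, `β`. LOC: `S a := genS bk (ll a)`, `slalom_genS`,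
`inStar_genS`. UNB: `c := fun a => genH bk (g a)`, `unbounded`.
-/

set_option autoImplicit false

namespace Pool.Agent.Lib.MP_7d369a_lc.Forc

open Pool.Agent.Ladder Pool.Agent.Lib.MP_7d369a_lc.BV

/-- the conditions of a code have countably many coordinates -/
theorem mnb_countable {K J : Type} {κ : K → Kind} (S : ℕ → ℕ → ℕ → Option (Cd K J κ)) :
    {i : K | ∃ n v m c, S n v m = some c ∧ i ∈ supp c}.Countable := by
  classical
  have h : {i : K | ∃ n v m c, S n v m = some c ∧ i ∈ supp c} =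
      ⋃ (n : ℕ) (v : ℕ) (m : ℕ), {i : K | ∃ c, S n v m = some c ∧ i ∈ supp c} := by
    ext i
    simp only [Set.mem_setOf_eq, Set.mem_iUnion]
  rw [h]
  refine Set.countable_iUnion fun n => Set.countable_iUnion fun v => Set.countable_iUnion fun m => ?_
  cases hx : S n v m with
  | none => exact (Set.countable_empty).mono fun i hi => by obtain ⟨c, hc, -⟩ := hi; cases hc
  | some c =>
    refine ((supp c).countable_toSet).mono fun i hi => ?_
    obtain ⟨c', hc', h'⟩ := hi
    cases hc'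
    exact h'

theorem interfaceB : ∃ (B : Type) (_ : CompleteBooleanAlgebra B), Nontrivial B ∧ BCCC B ∧
    HitEach B ∧ ∃ Gam : Type, Cardinal.aleph 1 < Cardinal.mk Gam ∧ Unb B Gam := by
  obtain ⟨K, J, Gam, _, _, κ, e, hh, ll, g, hGam, hg, hgC, hhH, hlL, he, hZ⟩ :=
    exists_bookkeeping_B
  have key : ∀ x : BFun (RO (Po (fun _ : K => e))) ℕ ℕ, ∃ (β : J) (a : W),
      Codes (fun _ : K => e) (e β) x ∧
      (∀ n v m c, e β n v m = some c → ∀ i ∈ supp c, i < hh a) ∧
      ∀ n v m c, e β n v m = some c → ∀ i ∈ supp c, i < ll a := by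
    intro x
    obtain ⟨S, hS⟩ := exists_code (fun _ : K => e) x
    obtain ⟨β, hβ⟩ := he S
    obtain ⟨a, ha⟩ := hZ _ (mnb_countable S)
    subst hβ
    exact ⟨β, a, hS, fun n v m c hc i hi => (ha i ⟨n, v, m, c, hc, hi⟩).1,
      fun n v m c hc i hi => (ha i ⟨n, v, m, c, hc, hi⟩).2⟩
  refine ⟨RO (Po (fun _ : K => e)), inferInstance, nontrivial_Po _, bccc_Po _,
    ⟨⟨fun a => genH (fun _ : K => e) (hh a), fun x => ?_⟩,
      ⟨fun a => genS (fun _ : K => e) (ll a), fun a => slalom_genS _ (hlL a), fun x hx => ?_⟩⟩,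
    Gam, hGam, fun a => genH (fun _ : K => e) (g a),
    fun f hf S hS => unbounded g hg hgC f hf S hS⟩
  · obtain ⟨β, a, h1, h2, -⟩ := key x
    exact ⟨a, leStar_genH (hhH a) β h2 h1⟩
  · obtain ⟨β, a, h1, -, h3⟩ := key x
    exact ⟨a, inStar_genS (hlL a) β h3 h1 hx⟩

end Pool.Agent.Lib.MP_7d369a_lc.Forc
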