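import Pool.Agent.Lib.MP_7d369a_lc.BV.Iface

/-!
# Images of names of functions

The interface (`leStar`, `inStar`, `modStar`, `Slalom`, `Bdd`, `bd`, `ex`, `Fast`, `HitAll`,
`HitEach`, `Unb`) is in `MP_7d369a_lc.BV.Iface`.
-/

set_option autoImplicit false

namespace Pool.Agent.Lib.MP_7d369a_lc.Forc

open Pool.Agent.Ladder

section
variable {B : Type} [CompleteBooleanAlgebra B]

/-- The image of a name under a sequence of ground-model functions. -/
def mapName {X Y Z : Type} (φ : X → Y → Z) (x : BFun B X Y) : BFun B X Z where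
  val n z := ⨆ y : Y, ⨆ (_ : φ n y = z), x.val n y
  disj := by
    intro n z z' hne
    rw [iSup_inf_iSup, eq_bot_iff]
    refine iSup_le fun ⟨y, y'⟩ => ?_
    rw [iSup_inf_eq]
    refine iSup_le fun h => ?_
    rw [inf_iSup_eq]
    refine iSup_le fun h' => ?_
    have hyy : y ≠ y' := by
      rintro rfl
      exact hne (h.symm.trans h')
    exact (x.disj n y y' hyy).le
  total := by
    intro n
    rw [eq_top_iff, ← x.total n]
    refine iSup_le fun y => ?_
    exact le_iSup_of_le (φ n y) (le_iSup_of_le y (le_iSup_of_le rfl le_rfl))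

end

end Pool.Agent.Lib.MP_7d369a_lc.Forc
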