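import Pool.Agent.Lib.MP_7d369a_lc.Forc.Names

/-!
# The finite support iteration

Conditions are finite objects; only the order refers (recursively) to the names handled by the
bookkeeping. Every coordinate adds a sequence of finite sets of natural numbers: singletons
(kind `C`, Cohen reals), arbitrary finite sets capturing the values of the names of the
coordinate (kind `H`, dominating reals), sets with at most `n` elements at `n` capturing the
(bounded) values of the names of the coordinate (kind `L`, localization).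
-/

set_option autoImplicit false
set_option linter.unusedSectionVars false
set_option linter.unusedVariables false

namespace Pool.Agent.Lib.MP_7d369a_lc.Forc

open Pool.Agent.Ladder Pool.Agent.Lib.MP_7d369a_lc.BV

/-- The three kinds of coordinates. -/
inductive Kind
  | C
  | H
  | L
  deriving DecidableEq

/-- Admissible entries. -/
def Kind.Ok : Kind → ℕ → Finset ℕ → Prop
  | .C, _, e => ∃ v, e = {v}
  | .H, _, _ => True
  | .L, n, e => e.card ≤ n

/-- Admissible numbers of promises (for a stem of length `N`). -/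
def Kind.Pok : Kind → ℕ → ℕ → Prop
  | .C, _, m => m = 0
  | .H, _, _ => True
  | .L, N, m => m ≤ N

/-- Values of names at coordinates of kind `L` are cut off at `bd`. -/
def Kind.clip : Kind → ℕ → ℕ → ℕ
  | .L, n, v => if v < bd n then v else 0
  | .H, _, v => v
  | .C, _, v => v

/-- One coordinate of a condition: the stem and the set of promises. -/
@[ext] structure Co (J : Type) where
  st : List (Finset ℕ)
  pr : Finset J

instance {J : Type} : Zero (Co J) := ⟨⟨[], ∅⟩⟩

theorem Co.zero_st {J : Type} : (0 : Co J).st = [] := rfl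
theorem Co.zero_pr {J : Type} : (0 : Co J).pr = ∅ := rfl

/-- Conditions. -/
@[ext] structure Cd (K J : Type) (κ : K → Kind) where
  co : K →₀ Co J
  ok : ∀ i n e, (co i).st[n]? = some e → (κ i).Ok n e
  pok : ∀ i, (κ i).Pok (co i).st.length (co i).pr.card

/-- Codes of families (indexed by `J`) of names for functions `ℕ → ℕ`: `S β n v` is a sequence of
conditions generating the value `v ≠ 0` of the function with index `β` at `n`. -/
abbrev Code (K J : Type) (κ : K → Kind) : Type := J → ℕ → ℕ → ℕ → Option (Cd K J κ)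

section
variable {K J : Type} {κ : K → Kind}

/-- `q` decides the value of the name coded by `S` to be `v`, with respect to the order `R`. -/
def Dec (R : Cd K J κ → Cd K J κ → Prop) (S : ℕ → ℕ → Option (Cd K J κ)) (q : Cd K J κ) (v : ℕ) :
    Prop :=
  (v ≠ 0 → ∀ r, R r q → ∃ r', R r' r ∧ ∃ m a, S v m = some a ∧ R r' a) ∧
  ∀ v', v' ≠ 0 → (v' < v ∨ v = 0) → ∀ m a, S v' m = some a → ∀ r, R r q → ¬ R r a

/-- The order at coordinate `i`. -/
def Step (i : K) (R : Cd K J κ → Cd K J κ → Prop) (S : J → ℕ → ℕ → ℕ → Option (Cd K J κ))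
    (q p : Cd K J κ) : Prop :=
  (p.co i).st <+: (q.co i).st ∧ (p.co i).pr ⊆ (q.co i).pr ∧
  ∀ β ∈ (p.co i).pr, ∀ n, (p.co i).st.length ≤ n → ∀ e, (q.co i).st[n]? = some e →
    ∃ v, Dec R (S β n) q v ∧ (κ i).clip n v ∈ e

variable [LinearOrder K] [WellFoundedLT K] (bk : K → Code K J κ)

/-- The order on conditions restricted to coordinates below `i`. -/
def ordF : K → Cd K J κ → Cd K J κ → Prop :=
  (wellFounded_lt (α := K)).fix fun _ rec q p =>
    ∀ j (h : _), Step j (rec j h) (bk j) q p

/-- The order on conditions restricted to coordinates in `I`. -/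
def LE' (I : Set K) (q p : Cd K J κ) : Prop :=
  ∀ i ∈ I, Step i (ordF bk i) (bk i) q p

theorem ordF_eq (i : K) : ordF bk i = LE' bk (Set.Iio i) := by
  funext q p
  unfold ordF
  rw [(wellFounded_lt (α := K)).fix_eq]
  rfl

theorem Step.refl (i : K) (R : Cd K J κ → Cd K J κ → Prop)
    (S : J → ℕ → ℕ → ℕ → Option (Cd K J κ)) (p : Cd K J κ) : Step i R S p p :=
  ⟨List.prefix_rfl, subset_rfl, fun _ _ n hn e he => by
    rw [List.getElem?_eq_none hn] at he
    cases he⟩

theorem LE'.refl (I : Set K) (p : Cd K J κ) : LE' bk I p p := fun _ _ => Step.refl _ _ _ _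

variable {bk}

theorem LE'.mono {I I' : Set K} (hI : I' ⊆ I) {q p : Cd K J κ} (h : LE' bk I q p) :
    LE' bk I' q p := fun i hi => h i (hI hi)

theorem Dec.mono {R : Cd K J κ → Cd K J κ → Prop} (hR : ∀ a b c, R a b → R b c → R a c)
    {S : ℕ → ℕ → Option (Cd K J κ)} {q r : Cd K J κ} (hrq : R r q) {v : ℕ}
    (h : Dec R S q v) : Dec R S r v :=
  ⟨fun hv t ht => h.1 hv t (hR _ _ _ ht hrq), fun v' h1 h2 m a ha t ht =>
    h.2 v' h1 h2 m a ha t (hR _ _ _ ht hrq)⟩

/-- lower sets of coordinates -/
def Low (I : Set K) : Prop := ∀ i ∈ I, ∀ j, j < i → j ∈ I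

theorem low_Iio (i : K) : Low (Set.Iio i) := fun _ hj _ hk => lt_trans hk hj
theorem low_Iic (i : K) : Low (Set.Iic i) := fun _ hj _ hk => (le_of_lt hk).trans hj
theorem low_univ : Low (Set.univ : Set K) := fun _ _ _ _ => trivial

theorem Low.Iio_subset {I : Set K} (hI : Low I) {i : K} (hi : i ∈ I) : Set.Iio i ⊆ I :=
  fun j hj => hI i hi j hj

theorem getElem?_of_prefix {α : Type} {l l' : List α} (h : l <+: l') {n : ℕ} (hn : n < l.length) :
    l'[n]? = l[n]? := by
  obtain ⟨t, rfl⟩ := h
  rw [List.getElem?_append_left hn]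

theorem LE'.trans_aux (I : Set K) (hI : Low I)
    (htr : ∀ i ∈ I, ∀ a b c : Cd K J κ, LE' bk (Set.Iio i) a b → LE' bk (Set.Iio i) b c →
      LE' bk (Set.Iio i) a c)
    {r q p : Cd K J κ} (h : LE' bk I r q) (h' : LE' bk I q p) : LE' bk I r p := by
  intro i hi
  obtain ⟨h1, h2, h3⟩ := h i hi
  obtain ⟨h1', h2', h3'⟩ := h' i hi
  refine ⟨h1'.trans h1, h2'.trans h2, ?_⟩
  intro β hβ n hn e he
  by_cases hnq : n < (q.co i).st.length
  · have he' : (q.co i).st[n]? = some e := by rw [← getElem?_of_prefix h1 hnq]; exact he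
    obtain ⟨v, hv, hve⟩ := h3' β hβ n hn e he'
    refine ⟨v, ?_, hve⟩
    rw [ordF_eq] at hv ⊢
    exact hv.mono (htr i hi) (h.mono (hI.Iio_subset hi))
  · exact h3 β (h2' hβ) n (not_lt.1 hnq) e he

theorem LE'.trans_Iio (i : K) : ∀ a b c : Cd K J κ, LE' bk (Set.Iio i) a b →
    LE' bk (Set.Iio i) b c → LE' bk (Set.Iio i) a c := by
  induction i using (wellFounded_lt (α := K)).induction with
  | _ i ih =>
    intro a b c h h'
    exact LE'.trans_aux (Set.Iio i) (low_Iio i) (fun j hj => ih j hj) h h'

theorem LE'.trans {I : Set K} (hI : Low I) {r q p : Cd K J κ} (h : LE' bk I r q)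
    (h' : LE' bk I q p) : LE' bk I r p :=
  LE'.trans_aux I hI (fun i _ => LE'.trans_Iio i) h h'

/-- The order for all coordinates. -/
def Po (_ : K → Code K J κ) : Type := Cd K J κ

instance : Preorder (Po bk) where
  le q p := LE' bk Set.univ q p
  le_refl p := LE'.refl bk _ p
  le_trans _ _ _ h h' := LE'.trans low_univ h h'

theorem Po.le_def {p q : Po bk} : q ≤ p ↔ LE' bk Set.univ q p := Iff.rfl

/-- The coordinates on which a condition is not trivial. -/
def supp (p : Cd K J κ) : Finset K := p.co.support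

theorem co_eq_zero {p : Cd K J κ} {i : K} (h : i ∉ supp p) : p.co i = 0 :=
  Finsupp.notMem_support_iff.1 h

/-- `p` and `p'` agree on the coordinates in `I`. -/
def Agree (I : Set K) (p p' : Cd K J κ) : Prop := ∀ i ∈ I, p.co i = p'.co i

theorem Agree.symm {I : Set K} {p p' : Cd K J κ} (h : Agree I p p') : Agree I p' p :=
  fun i hi => (h i hi).symm

theorem Step.of_eq {i : K} {R : Cd K J κ → Cd K J κ → Prop}
    {S : J → ℕ → ℕ → ℕ → Option (Cd K J κ)} {q p : Cd K J κ}
    (h : q.co i = p.co i) : Step i R S q p := by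
  unfold Step
  rw [h]
  exact ⟨List.prefix_rfl, subset_rfl, fun _ _ n hn e he => by
    rw [List.getElem?_eq_none hn] at he
    cases he⟩

theorem Step.of_zero {i : K} {R : Cd K J κ → Cd K J κ → Prop}
    {S : J → ℕ → ℕ → ℕ → Option (Cd K J κ)} {q p : Cd K J κ}
    (h : p.co i = 0) : Step i R S q p := by
  unfold Step
  rw [h]
  exact ⟨List.nil_prefix, Finset.empty_subset _, fun β hβ => absurd hβ (Finset.notMem_empty _)⟩

theorem Agree.le {I : Set K} {p p' : Cd K J κ} (h : Agree I p p') : LE' bk I p p' :=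
  fun i hi => Step.of_eq (h i hi)

/-- transport of one coordinate of the order -/
theorem Step.congr {i : K} {q q' p p' : Cd K J κ} (h : Step i (ordF bk i) (bk i) q p)
    (hle : LE' bk (Set.Iio i) q' q) (hq : q'.co i = q.co i) (hp : p'.co i = p.co i) :
    Step i (ordF bk i) (bk i) q' p' := by
  obtain ⟨h1, h2, h3⟩ := h
  unfold Step
  rw [hq, hp]
  refine ⟨h1, h2, fun β hβ n hn e he => ?_⟩
  obtain ⟨v, hv, hve⟩ := h3 β hβ n hn e he
  refine ⟨v, ?_, hve⟩
  rw [ordF_eq] at hv ⊢
  exact hv.mono (LE'.trans_Iio i) hle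

open Classical in
/-- `r` on the coordinates in `I`, `p` on the others. -/
noncomputable def glue (I : Set K) (r p : Cd K J κ) : Cd K J κ where
  co := Finsupp.onFinset (supp r ∪ supp p) (fun i => if i ∈ I then r.co i else p.co i) (by
    intro i hi
    rw [Finset.mem_union]
    by_cases h : i ∈ I
    · rw [if_pos h] at hi
      exact Or.inl (Finsupp.mem_support_iff.2 hi)
    · rw [if_neg h] at hi
      exact Or.inr (Finsupp.mem_support_iff.2 hi))
  ok := by
    intro i n e h
    rw [Finsupp.onFinset_apply] at h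
    by_cases hi : i ∈ I
    · rw [if_pos hi] at h; exact r.ok i n e h
    · rw [if_neg hi] at h; exact p.ok i n e h
  pok := by
    intro i
    rw [Finsupp.onFinset_apply]
    by_cases hi : i ∈ I
    · rw [if_pos hi]; exact r.pok i
    · rw [if_neg hi]; exact p.pok i

theorem glue_in {I : Set K} {r p : Cd K J κ} {i : K} (hi : i ∈ I) :
    (glue I r p).co i = r.co i := by
  simp only [glue, Finsupp.onFinset_apply, if_pos hi]

theorem glue_out {I : Set K} {r p : Cd K J κ} {i : K} (hi : i ∉ I) :
    (glue I r p).co i = p.co i := by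
  simp only [glue, Finsupp.onFinset_apply, if_neg hi]

theorem glue_agree (I : Set K) (r p : Cd K J κ) : Agree I (glue I r p) r :=
  fun _ hi => glue_in hi

/-- If `r` is below `p` on the lower set `I`, then `r` on `I` together with `p` outside `I` is
below `p`. -/
theorem glue_le {I I' : Set K} (hI : Low I) {r p : Cd K J κ} (h : LE' bk I r p) :
    LE' bk I' (glue I r p) p := by
  intro i _
  by_cases hi : i ∈ I
  · refine (h i hi).congr ?_ (glue_in hi) rfl
    exact ((glue_agree I r p).le).mono (hI.Iio_subset hi)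
  · exact Step.of_eq (glue_out hi)

theorem glue_le_left {I : Set K} {r p : Cd K J κ} : LE' bk I (glue I r p) r :=
  (glue_agree I r p).le

open Classical in
/-- The condition `p` with coordinate `i` replaced by `c`. -/
noncomputable def upd (p : Cd K J κ) (i : K) (c : Co J)
    (h1 : ∀ n e, c.st[n]? = some e → (κ i).Ok n e) (h2 : (κ i).Pok c.st.length c.pr.card) :
    Cd K J κ where
  co := p.co.update i c
  ok := by
    intro j n e h
    rw [Finsupp.coe_update] at h
    by_cases hj : j = i
    · subst hj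
      rw [Function.update_self] at h
      exact h1 n e h
    · rw [Function.update_of_ne hj] at h
      exact p.ok j n e h
  pok := by
    intro j
    rw [Finsupp.coe_update]
    by_cases hj : j = i
    · subst hj
      rw [Function.update_self]
      exact h2
    · rw [Function.update_of_ne hj]
      exact p.pok j

theorem upd_self {p : Cd K J κ} {i : K} {c : Co J} {h1 h2} : (upd p i c h1 h2).co i = c := by
  simp only [upd, Finsupp.coe_update, Function.update_self]

theorem upd_ne {p : Cd K J κ} {i j : K} {c : Co J} {h1 h2} (h : j ≠ i) :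
    (upd p i c h1 h2).co j = p.co j := by
  simp only [upd, Finsupp.coe_update, Function.update_of_ne h]

/-- Changing coordinate `i` only. -/
theorem upd_le {p : Cd K J κ} {i : K} {c : Co J} {h1 h2}
    (h : Step i (LE' bk (Set.Iio i)) (bk i) (upd p i c h1 h2) p) :
    LE' bk Set.univ (upd p i c h1 h2) p := by
  intro j _
  by_cases hj : j = i
  · subst hj
    rw [ordF_eq]
    exact h
  · exact Step.of_eq (upd_ne hj)

/-- Every value of a coded name can be decided by extending below `i`. -/
theorem exists_dec_below (i : K) (p : Cd K J κ) (β : J) (n : ℕ) :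
    ∃ r, LE' bk (Set.Iio i) r p ∧ ∃ v, Dec (LE' bk (Set.Iio i)) (bk i β n) r v := by
  classical
  by_cases h : ∃ v, v ≠ 0 ∧ ∃ r, LE' bk (Set.Iio i) r p ∧ ∃ m a, bk i β n v m = some a ∧
      LE' bk (Set.Iio i) r a
  · obtain ⟨hv0, r, hr, m, a, hm, hra⟩ := Nat.find_spec h
    have hmin := fun v' hv' => Nat.find_min h (m := v') hv'
    refine ⟨r, hr, Nat.find h, fun _ t ht => ⟨t, LE'.refl bk _ t, m, a, hm,
      LE'.trans_Iio i _ _ _ ht hra⟩, fun v' h1 h2 m' a' hm' t ht hta => ?_⟩
    rcases h2 with h2 | h2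
    · exact hmin v' h2 ⟨h1, t, LE'.trans_Iio i _ _ _ ht hr, m', a', hm', hta⟩
    · exact hv0 h2
  · refine ⟨p, LE'.refl bk _ p, 0, fun hv => absurd rfl hv, fun v' h1 _ m a hm r hr hra => ?_⟩
    exact h ⟨v', h1, r, hr, m, a, hm, hra⟩

end

end Pool.Agent.Lib.MP_7d369a_lc.Forc
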